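import Pool.Agent.Helper73.LF.Res

/-!
# Powers of a generator of the group of multiplicative characters
-/

open Finset

namespace Pool.Agent.Helper73.LF

variable {K L : Type*} [Field K] [Fintype K] [Field L]

/-- the power of `τ` with exponent `a / n` times the number of nonzero elements of `K` -/
noncomputable def ch {n : ℕ} (τ : MulChar K L) (a : ZMod n) : MulChar K L :=
  τ ^ ((Fintype.card K - 1) * a.val / n)

variable {n : ℕ} [NeZero n] {τ : MulChar K L} {a b : ZMod n}

theorem card_pos' : 0 < Fintype.card K - 1 := by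
  have := Fintype.one_lt_card (α := K)
  omega

omit [Field L] in
theorem exp_mul (ha : ((Fintype.card K - 1 : ℕ) : ZMod n) * a = 0) :
    n * ((Fintype.card K - 1) * a.val / n) = (Fintype.card K - 1) * a.val := by
  apply Nat.mul_div_cancel'
  rw [← ZMod.natCast_eq_zero_iff, Nat.cast_mul, ZMod.natCast_zmod_val]
  exact ha

theorem ch_neg (hτ : orderOf τ = Fintype.card K - 1)
    (ha : ((Fintype.card K - 1 : ℕ) : ZMod n) * a = 0) : ch τ (-a) = (ch τ a)⁻¹ := by
  have ha' : ((Fintype.card K - 1 : ℕ) : ZMod n) * (-a) = 0 := by rw [mul_neg, ha, neg_zero]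
  rw [eq_inv_iff_mul_eq_one, ch, ch, ← pow_add]
  have h1 := exp_mul ha
  have h2 := exp_mul ha'
  have hn : 0 < n := NeZero.pos n
  by_cases h0 : a = 0
  · subst h0
    rw [neg_zero, ZMod.val_zero, mul_zero, Nat.zero_div, add_zero, pow_zero]
  · have : NeZero a := ⟨h0⟩
    rw [ZMod.val_neg_of_ne_zero] at h2 ⊢
    have h3 : (Fintype.card K - 1) * (n - a.val) / n + (Fintype.card K - 1) * a.val / n =
        Fintype.card K - 1 := by
      apply Nat.eq_of_mul_eq_mul_left hn
      rw [mul_add, h1, h2, ← mul_add, Nat.sub_add_cancel (ZMod.val_lt a).le, mul_comm]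
    rw [h3, ← hτ, pow_orderOf_eq_one]

theorem ch_ne_one (hτ : orderOf τ = Fintype.card K - 1)
    (ha : ((Fintype.card K - 1 : ℕ) : ZMod n) * a = 0) (h0 : a ≠ 0) : ch τ a ≠ 1 := by
  intro h
  rw [ch, ← orderOf_dvd_iff_pow_eq_one, hτ] at h
  obtain ⟨k, hk⟩ := h
  have h1 := exp_mul ha
  rw [hk, mul_left_comm] at h1
  have h2 := Nat.eq_of_mul_eq_mul_left (card_pos' (K := K)) h1
  have h3 := ZMod.val_lt a
  rw [← h2] at h3
  have h4 : k = 0 := by
    by_contra hk0
    have : n * 1 ≤ n * k := Nat.mul_le_mul_left n (Nat.one_le_iff_ne_zero.2 hk0)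
    omega
  rw [h4, mul_zero] at h2
  exact h0 ((ZMod.val_eq_zero a).1 h2.symm)

theorem ch_mul_ne (hτ : orderOf τ = Fintype.card K - 1)
    (ha : ((Fintype.card K - 1 : ℕ) : ZMod n) * a = 0)
    (hb : ((Fintype.card K - 1 : ℕ) : ZMod n) * b = 0) {η : MulChar K L} (hη : η ≠ 1)
    (hη2 : η ^ 2 = 1) (h : ¬ (a + b ≠ 0 ∧ 2 * (a + b) = 0)) : ch τ a * ch τ b ≠ η := by
  intro heq
  apply h
  have h1 := exp_mul ha
  have h2 := exp_mul hb
  rw [ch, ch, ← pow_add] at heq
  have hN := card_pos' (K := K)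
  set e := (Fintype.card K - 1) * a.val / n
  set e' := (Fintype.card K - 1) * b.val / n
  constructor
  · intro h0
    have h3 : n ∣ a.val + b.val := by
      rw [← ZMod.natCast_eq_zero_iff, Nat.cast_add, ZMod.natCast_zmod_val, ZMod.natCast_zmod_val]
      exact h0
    obtain ⟨k, hk⟩ := h3
    have h4 : e + e' = (Fintype.card K - 1) * k := by
      apply Nat.eq_of_mul_eq_mul_left (NeZero.pos n)
      rw [mul_add, h1, h2, ← mul_add, hk]
      ring
    rw [h4, ← hτ, pow_mul, pow_orderOf_eq_one, one_pow] at heq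
    exact hη heq.symm
  · rw [← heq, ← pow_mul, ← orderOf_dvd_iff_pow_eq_one, hτ] at hη2
    obtain ⟨k, hk⟩ := hη2
    have h3 : 2 * (a.val + b.val) = n * k := by
      apply Nat.eq_of_mul_eq_mul_left hN
      calc (Fintype.card K - 1) * (2 * (a.val + b.val))
          = 2 * ((Fintype.card K - 1) * a.val + (Fintype.card K - 1) * b.val) := by ring
        _ = 2 * (n * e + n * e') := by rw [h1, h2]
        _ = n * ((e + e') * 2) := by ring
        _ = (Fintype.card K - 1) * (n * k) := by rw [hk]; ring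
    have h4 : ((2 * (a.val + b.val) : ℕ) : ZMod n) = 0 := by
      rw [h3, Nat.cast_mul, ZMod.natCast_self, zero_mul]
    push_cast at h4
    rwa [ZMod.natCast_zmod_val, ZMod.natCast_zmod_val] at h4

theorem ch_pow (hτ : orderOf τ = Fintype.card K - 1)
    (ha : ((Fintype.card K - 1 : ℕ) : ZMod n) * a = 0) {d : ℕ} (hd : (d : ZMod n) * a = 0) :
    ch τ a ^ d = 1 := by
  have h1 := exp_mul ha
  have h3 : n ∣ d * a.val := by
    rw [← ZMod.natCast_eq_zero_iff, Nat.cast_mul, ZMod.natCast_zmod_val]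
    exact hd
  obtain ⟨k, hk⟩ := h3
  rw [ch, ← pow_mul]
  have h4 : (Fintype.card K - 1) * a.val / n * d = (Fintype.card K - 1) * k := by
    apply Nat.eq_of_mul_eq_mul_left (NeZero.pos n)
    rw [← mul_assoc, h1]
    calc (Fintype.card K - 1) * a.val * d = (Fintype.card K - 1) * (d * a.val) := by ring
      _ = n * ((Fintype.card K - 1) * k) := by rw [hk]; ring
  rw [h4, ← hτ, pow_mul, pow_orderOf_eq_one, one_pow]

theorem ch_trivialOn {K₀ : Type*} [Field K₀] [Fintype K₀] [Algebra K₀ K]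
    (hcard : Fintype.card K = Fintype.card K₀ ^ 2)
    (ha : ((Fintype.card K - 1 : ℕ) : ZMod n) * a = 0)
    (h : ((Fintype.card K₀ + 1 : ℕ) : ZMod n) * a = 0) : TrivialOn K₀ (ch τ a) := by
  intro x hx
  have h1 := exp_mul ha
  have h3 : n ∣ (Fintype.card K₀ + 1) * a.val := by
    rw [← ZMod.natCast_eq_zero_iff, Nat.cast_mul, ZMod.natCast_zmod_val]
    exact h
  obtain ⟨k, hk⟩ := h3
  have h5 : Fintype.card K - 1 = (Fintype.card K₀ - 1) * (Fintype.card K₀ + 1) := by
    obtain ⟨c, hc⟩ : ∃ c, Fintype.card K₀ = c + 1 :=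
      ⟨Fintype.card K₀ - 1, by have := Fintype.card_pos (α := K₀); omega⟩
    rw [hcard, hc]
    have : (c + 1) ^ 2 = (c + 1 - 1) * (c + 1 + 1) + 1 := by
      rw [Nat.add_sub_cancel]; ring
    omega
  have h4 : (Fintype.card K - 1) * a.val / n = (Fintype.card K₀ - 1) * k := by
    apply Nat.eq_of_mul_eq_mul_left (NeZero.pos n)
    rw [h1, h5, mul_assoc, hk]
    ring
  rw [ch, h4]
  have hx' : algebraMap K₀ K x ≠ 0 := by rwa [Ne, map_eq_zero]
  by_cases h0 : (Fintype.card K₀ - 1) * k = 0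
  · rw [h0, pow_zero, MulChar.one_apply (isUnit_iff_ne_zero.2 hx')]
  · rw [MulChar.pow_apply' _ h0, pow_mul, ← map_pow τ, ← map_pow τ, ← map_pow (algebraMap K₀ K),
      FiniteField.pow_card_sub_one_eq_one x hx, map_one, one_pow, map_one]

omit [NeZero n] in
/-- a generator of the group of characters is faithful -/
theorem faithful (hτ : orderOf τ = Fintype.card K - 1) {x : K} (hx : x ≠ 0) (h : τ x = 1) :
    x = 1 := by
  classical
  obtain ⟨g, hg⟩ := IsCyclic.exists_generator (α := Kˣ)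
  have hpow : ∀ u : Kˣ, ∃ i : ℕ, g ^ i = u := fun u =>
    (mem_powers_iff_mem_zpowers.2 (hg u))
  obtain ⟨i, hi⟩ := hpow (Units.mk0 x hx)
  have h1 : τ ^ orderOf (τ (g : K)) = 1 := by
    apply MulChar.ext
    intro u
    obtain ⟨j, rfl⟩ := hpow u
    rw [MulChar.pow_apply_coe, MulChar.one_apply_coe, Units.val_pow_eq_pow_val, map_pow, ← pow_mul,
      mul_comm, pow_mul, pow_orderOf_eq_one, one_pow]
  have h2 : Fintype.card K - 1 ∣ orderOf (τ (g : K)) := by
    rw [← hτ]
    exact orderOf_dvd_of_pow_eq_one h1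
  have h3 : τ (g : K) ^ i = 1 := by
    rw [← map_pow, ← Units.val_pow_eq_pow_val, hi]
    exact h
  have h4 : Fintype.card K - 1 ∣ i := h2.trans (orderOf_dvd_of_pow_eq_one h3)
  obtain ⟨k, rfl⟩ := h4
  have h5 : g ^ (Fintype.card K - 1) = 1 := by
    rw [← Fintype.card_units]
    exact pow_card_eq_one
  rw [pow_mul, h5, one_pow] at hi
  have h6 := congrArg Units.val hi
  rw [Units.val_mk0, Units.val_one] at h6
  exact h6.symm

/-- the value at `16` if `2` is not an `r`-th power -/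
theorem ch_sixteen {r e : ℕ} (hr : r.Prime) (hr2 : r ≠ 2) (hτ : orderOf τ = Fintype.card K - 1)
    (ha : ((Fintype.card K - 1 : ℕ) : ZMod n) * a = 0)
    (hb : ((Fintype.card K - 1 : ℕ) : ZMod n) * b = 0)
    (ha' : ((r ^ (e + 1) : ℕ) : ZMod n) * a = 0) (hb' : ((r ^ (e + 1) : ℕ) : ZMod n) * b = 0)
    (hab : ((r ^ e : ℕ) : ZMod n) * (a - b) ≠ 0) (hK : r ∣ Fintype.card K - 1)
    (h2 : (2 : K) ≠ 0) (hpow : (2 : K) ^ ((Fintype.card K - 1) / r) ≠ 1) :
    IsPrimitiveRoot (ch τ a 16 * (ch τ b)⁻¹ 16) (r ^ (e + 1)) := by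
  have h16 : (16 : K) ≠ 0 := by
    have : (16 : K) = 2 ^ 4 := by norm_num
    rw [this]
    exact pow_ne_zero 4 h2
  have hu16 : IsUnit (16 : K) := isUnit_iff_ne_zero.2 h16
  set c : K := 16 with hc
  have hrp : Fact r.Prime := ⟨hr⟩
  have h1 : (ch τ a c * (ch τ b)⁻¹ c) ^ r ^ (e + 1) = 1 := by
    rw [← MulChar.mul_apply, ← MulChar.pow_apply' _ (pow_pos hr.pos _).ne', mul_pow, inv_pow,
      ch_pow hτ ha ha', ch_pow hτ hb hb', inv_one, mul_one, MulChar.one_apply hu16]
  have h3 : (ch τ a c * (ch τ b)⁻¹ c) ^ r ^ e ≠ 1 := by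
    intro h
    -- exponents
    have hA := exp_mul ha
    have hB := exp_mul hb
    obtain ⟨k, hk⟩ : n ∣ r ^ (e + 1) * a.val := by
      rw [← ZMod.natCast_eq_zero_iff, Nat.cast_mul, ZMod.natCast_zmod_val]
      exact ha'
    obtain ⟨l, hl⟩ : n ∣ r ^ (e + 1) * b.val := by
      rw [← ZMod.natCast_eq_zero_iff, Nat.cast_mul, ZMod.natCast_zmod_val]
      exact hb'
    obtain ⟨M, hM⟩ := hK
    have hn : 0 < n := NeZero.pos n
    have hMr : (Fintype.card K - 1) / r = M := by
      rw [hM, Nat.mul_div_cancel_left _ hr.pos]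
    have eA : (Fintype.card K - 1) * a.val / n * r ^ e = M * k := by
      apply Nat.eq_of_mul_eq_mul_left (Nat.mul_pos hn hr.pos)
      calc n * r * ((Fintype.card K - 1) * a.val / n * r ^ e)
          = (n * ((Fintype.card K - 1) * a.val / n)) * r ^ (e + 1) := by ring
        _ = r * M * (r ^ (e + 1) * a.val) := by rw [hA, hM]; ring
        _ = n * r * (M * k) := by rw [hk]; ring
    have eB : (Fintype.card K - 1) * b.val / n * r ^ e = M * l := by
      apply Nat.eq_of_mul_eq_mul_left (Nat.mul_pos hn hr.pos)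
      calc n * r * ((Fintype.card K - 1) * b.val / n * r ^ e)
          = (n * ((Fintype.card K - 1) * b.val / n)) * r ^ (e + 1) := by ring
        _ = r * M * (r ^ (e + 1) * b.val) := by rw [hB, hM]; ring
        _ = n * r * (M * l) := by rw [hl]; ring
    have h4 : (ch τ a * (ch τ b)⁻¹) ^ r ^ e = τ ^ (M * k) * (τ ^ (M * l))⁻¹ := by
      rw [mul_pow, inv_pow, ch, ch, ← pow_mul, ← pow_mul, eA, eB]
    rw [← MulChar.mul_apply, ← MulChar.pow_apply' _ (pow_pos hr.pos _).ne', h4] at h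
    -- the primitive root of unity
    set ω : L := τ ((2 : K) ^ M) with hω
    have hω1 : ω ≠ 1 := by
      intro h5
      apply hpow
      rw [hMr]
      exact faithful hτ (pow_ne_zero _ h2) h5
    have hωr : ω ^ r = 1 := by
      rw [hω, ← map_pow, ← pow_mul, mul_comm M r, ← hM,
        FiniteField.pow_card_sub_one_eq_one 2 h2, map_one]
    have hωp : IsPrimitiveRoot ω r := by
      have h5 := IsPrimitiveRoot.orderOf ω
      have h6 : orderOf ω = r := by
        rcases (Nat.dvd_prime hr).1 (orderOf_dvd_of_pow_eq_one hωr) with h7 | h7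
        · exact absurd (orderOf_eq_one_iff.1 h7) hω1
        · exact h7
      rwa [h6] at h5
    have hval : ∀ j : ℕ, (τ ^ (M * j)) c = ω ^ (4 * j) := by
      intro j
      by_cases hj : M * j = 0
      · rw [hj, pow_zero, MulChar.one_apply hu16]
        rcases Nat.mul_eq_zero.1 hj with hj | hj
        · exfalso
          apply hω1
          rw [hω, hj, pow_zero, map_one]
        · rw [hj, mul_zero, pow_zero]
      · rw [MulChar.pow_apply' _ hj, hω, ← map_pow, ← map_pow]
        congr 1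
        have : c = 2 ^ 4 := by rw [hc]; norm_num
        rw [this, ← pow_mul, ← pow_mul]
        ring_nf
    have h6 : (τ ^ (M * k) * (τ ^ (M * l))⁻¹) * (τ ^ (M * l)) = τ ^ (M * k) := by
      rw [inv_mul_cancel_right]
    have h7 : ω ^ (4 * l) = ω ^ (4 * k) := by
      rw [← hval, ← hval, ← h6, MulChar.mul_apply, h, one_mul]
    have hω0 : ω ≠ 0 := hωp.ne_zero hr.ne_zero
    have h8 : ω ^ ((4 * k : ℕ) - (4 * l : ℕ) : ℤ) = 1 := by
      rw [zpow_sub₀ hω0, zpow_natCast, zpow_natCast, ← h7, div_self (pow_ne_zero _ hω0)]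
    rw [hωp.zpow_eq_one_iff_dvd] at h8
    have h9 : (r : ℤ) ∣ 4 * ((k : ℤ) - l) := by
      have e1 : ((4 * k : ℕ) - (4 * l : ℕ) : ℤ) = 4 * ((k : ℤ) - l) := by push_cast; ring
      rwa [e1] at h8
    have hcop : IsCoprime (r : ℤ) 4 := by
      rw [Int.isCoprime_iff_gcd_eq_one]
      have e1 : Nat.Coprime r (2 ^ 2) :=
        ((Nat.coprime_primes hr Nat.prime_two).2 hr2).pow_right 2
      exact_mod_cast e1
    obtain ⟨s, hs⟩ := hcop.dvd_of_dvd_mul_left h9
    apply hab
    have h10 : (r : ℤ) ^ e * ((a.val : ℤ) - b.val) = n * s := by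
      have hr0 : (r : ℤ) ≠ 0 := by exact_mod_cast hr.ne_zero
      apply mul_left_cancel₀ hr0
      have e1 : (r : ℤ) ^ (e + 1) * a.val = n * k := by exact_mod_cast hk
      have e2 : (r : ℤ) ^ (e + 1) * b.val = n * l := by exact_mod_cast hl
      calc (r : ℤ) * ((r : ℤ) ^ e * ((a.val : ℤ) - b.val))
          = (r : ℤ) ^ (e + 1) * a.val - (r : ℤ) ^ (e + 1) * b.val := by ring
        _ = n * ((k : ℤ) - l) := by rw [e1, e2]; ring
        _ = r * (n * s) := by rw [hs]; ring
    have h11 := congrArg (Int.cast : ℤ → ZMod n) h10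
    push_cast at h11
    rw [ZMod.natCast_zmod_val, ZMod.natCast_zmod_val, ZMod.natCast_self, zero_mul] at h11
    rw [Nat.cast_pow]
    exact h11
  have h5 := IsPrimitiveRoot.orderOf (ch τ a c * (ch τ b)⁻¹ c)
  rwa [orderOf_eq_prime_pow h3 h1] at h5

end Pool.Agent.Helper73.LF
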