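import Mathlib

/-!
# Jordan blocks of size two and pairings
-/

open Module

namespace Pool.Agent.Helper73.LF

variable {L W W' : Type*} [Field L] [AddCommGroup W] [Module L W] [FiniteDimensional L W]
    [AddCommGroup W'] [Module L W'] [FiniteDimensional L W']

omit [FiniteDimensional L W] in
theorem indep {T : End L W} {a : L} {x : W} (h : (T - a • 1) ((T - a • 1) x) = 0)
    (hx : (T - a • 1) x ≠ 0) : LinearIndependent L ![x, (T - a • 1) x] := by
  rw [LinearIndependent.pair_iff]
  intro s t hst
  have h1 : (T - a • 1) (s • x + t • (T - a • 1) x) = (T - a • 1) 0 := by rw [hst]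
  rw [map_add, map_smul, map_smul, h, smul_zero, add_zero, map_zero] at h1
  rcases smul_eq_zero.1 h1 with h2 | h2
  · refine ⟨h2, ?_⟩
    rw [h2, zero_smul, zero_add] at hst
    rcases smul_eq_zero.1 hst with h3 | h3
    · exact h3
    · exact absurd h3 hx
  · exact absurd h2 hx

theorem two_le {T : End L W} {a : L} {x : W} (h : (T - a • 1) ((T - a • 1) x) = 0)
    (hx : (T - a • 1) x ≠ 0) : 2 ≤ finrank L W := by
  have h1 := (indep h hx).fintype_card_le_finrank
  rwa [Fintype.card_fin] at h1

theorem mem_pair {T : End L W} {a : L} {x : W} (hdim : finrank L W ≤ 2)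
    (h : (T - a • 1) ((T - a • 1) x) = 0) (hx : (T - a • 1) x ≠ 0) (w : W) :
    ∃ s t : L, w = s • x + t • (T - a • 1) x := by
  have h2 : finrank L W = 2 := le_antisymm hdim (two_le h hx)
  have h3 := (indep h hx).span_eq_top_of_card_eq_finrank (by rw [Fintype.card_fin, h2])
  have h4 : w ∈ Submodule.span L (Set.range ![x, (T - a • 1) x]) := by
    rw [h3]; exact Submodule.mem_top
  rw [Matrix.range_cons, Matrix.range_cons, Matrix.range_empty, Set.union_empty,
    Set.singleton_union, Submodule.mem_span_pair] at h4
  obtain ⟨s, t, hst⟩ := h4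
  exact ⟨s, t, hst.symm⟩

theorem trace_of_sq {T : End L W} {a : L} (h : ∀ w : W, (T - a • 1) ((T - a • 1) w) = 0) :
    LinearMap.trace L W T = a * finrank L W := by
  have h1 : IsNilpotent (T - a • 1) := by
    refine ⟨2, LinearMap.ext fun w => ?_⟩
    rw [pow_two]
    exact h w
  have h2 := LinearMap.isNilpotent_trace_of_isNilpotent h1
  rw [isNilpotent_iff_eq_zero, map_sub, map_smul, LinearMap.trace_one, smul_eq_mul,
    sub_eq_zero] at h2
  exact h2

theorem sq_all {T : End L W} {a : L} {x : W} (hdim : finrank L W ≤ 2)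
    (h : (T - a • 1) ((T - a • 1) x) = 0) (hx : (T - a • 1) x ≠ 0) (w : W) :
    (T - a • 1) ((T - a • 1) w) = 0 := by
  obtain ⟨s, t, rfl⟩ := mem_pair hdim h hx w
  rw [map_add, map_smul, map_smul, map_add, map_smul, map_smul, h, smul_zero, map_zero, smul_zero,
    add_zero]

/-- the traces on two spaces in duality if there is a Jordan block of size two -/
theorem pair_trace {T : End L W} {T' : End L W'} (b : W →ₗ[L] W' →ₗ[L] L) {c : L} (hc : c ≠ 0)
    (hb : ∀ x y, b (T x) (T' y) = c * b x y) (hl : ∀ x, (∀ y, b x y = 0) → x = 0)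
    (hr : ∀ y, (∀ x, b x y = 0) → y = 0) (hdim : finrank L W ≤ 2) {a : L} {x : W}
    (h : (T - a • 1) ((T - a • 1) x) = 0) (hx : (T - a • 1) x ≠ 0) :
    a ≠ 0 ∧ LinearMap.trace L W T = 2 * a ∧ LinearMap.trace L W' T' = 2 * (c / a) := by
  have h2 : finrank L W = 2 := le_antisymm hdim (two_le h hx)
  have hz : T ((T - a • 1) x) = a • (T - a • 1) x := by
    rw [← sub_eq_zero]
    exact h
  have ha : a ≠ 0 := by
    rintro rfl
    apply hx
    apply hl
    intro y
    have h3 := hb ((T - (0 : L) • 1) x) y
    rw [hz, zero_smul, map_zero, LinearMap.zero_apply] at h3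
    rcases mul_eq_zero.1 h3.symm with h4 | h4
    · exact absurd h4 hc
    · exact h4
  have hsq := sq_all hdim h hx
  refine ⟨ha, ?_, ?_⟩
  · rw [trace_of_sq hsq, h2]
    push_cast
    ring
  · have hfr : finrank L W' = 2 := by
      apply le_antisymm
      · rw [← h2, ← Subspace.dual_finrank_eq (K := L) (V := W)]
        apply LinearMap.finrank_le_finrank_of_injective (f := b.flip)
        rw [injective_iff_map_eq_zero]
        intro y hy
        exact hr y fun x => LinearMap.congr_fun hy x
      · rw [← h2, ← Subspace.dual_finrank_eq (K := L) (V := W')]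
        apply LinearMap.finrank_le_finrank_of_injective (f := b)
        rw [injective_iff_map_eq_zero]
        intro x hx
        exact hl x fun y => LinearMap.congr_fun hx y
    have hinj : Function.Injective T := by
      rw [injective_iff_map_eq_zero]
      intro w hw
      apply hl
      intro y
      have h3 := hb w y
      rw [hw, map_zero, LinearMap.zero_apply] at h3
      rcases mul_eq_zero.1 h3.symm with h4 | h4
      · exact absurd h4 hc
      · exact h4
    have hsurj : Function.Surjective T := LinearMap.injective_iff_surjective.1 hinj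
    have h5 : ∀ w y, b (T w) ((T' - (c / a) • 1) y) = -(c / a) * b ((T - a • 1) w) y := by
      intro w y
      rw [LinearMap.sub_apply, LinearMap.smul_apply, End.one_apply, map_sub, map_smul, hb,
        LinearMap.sub_apply, LinearMap.smul_apply, End.one_apply, map_sub, map_smul,
        LinearMap.sub_apply, LinearMap.smul_apply, smul_eq_mul, smul_eq_mul]
      field_simp
      ring
    have h6 : ∀ y, (T' - (c / a) • 1) ((T' - (c / a) • 1) y) = 0 := by
      intro y
      apply hr
      intro w
      obtain ⟨w1, rfl⟩ := hsurj w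
      obtain ⟨w2, rfl⟩ := hsurj w1
      have h7 : (T - a • 1) (T w2) = T ((T - a • 1) w2) := by
        rw [LinearMap.sub_apply, LinearMap.smul_apply, End.one_apply, LinearMap.sub_apply,
          LinearMap.smul_apply, End.one_apply, map_sub, map_smul]
      rw [h5, h7, h5, hsq w2, map_zero, LinearMap.zero_apply, mul_zero, mul_zero]
    rw [trace_of_sq h6, hfr]
    push_cast
    ring

/-- the trace of an endomorphism preserving a bilinear form up to transposition -/
theorem self_trace {T : End L W} (b : W →ₗ[L] W →ₗ[L] L) {Q : L} (hQ : Q ≠ 0)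
    (hb : ∀ x y, b (T x) y = Q * b y x) (hl : ∀ x, (∀ y, b x y = 0) → x = 0)
    (hdim : finrank L W ≤ 2) {a : L} {x : W} (h : (T - a • 1) ((T - a • 1) x) = 0)
    (hx : (T - a • 1) x ≠ 0) : LinearMap.trace L W T = - 2 * Q := by
  have h2 : finrank L W = 2 := le_antisymm hdim (two_le h hx)
  have hz : T ((T - a • 1) x) = a • (T - a • 1) x := by
    rw [← sub_eq_zero]
    exact h
  have hTx : T x = a • x + (T - a • 1) x := by
    rw [LinearMap.sub_apply, LinearMap.smul_apply, End.one_apply]
    abel
  rw [trace_of_sq (sq_all hdim h hx), h2]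
  set z := (T - a • 1) x with hzdef
  have e1 := hb z z
  have e2 := hb z x
  have e3 := hb x z
  have e4 := hb x x
  rw [hz, map_smul, LinearMap.smul_apply, smul_eq_mul] at e1 e2
  rw [hTx, map_add, map_smul, LinearMap.add_apply, LinearMap.smul_apply, smul_eq_mul] at e3 e4
  have hz0 : b z z = 0 → b z x = 0 → False := by
    intro h5 h6
    apply hx
    apply hl
    intro y
    obtain ⟨s, t, rfl⟩ := mem_pair hdim h hx y
    rw [map_add, map_smul, map_smul, ← hzdef, h5, h6, smul_zero, smul_zero, add_zero]
  have haQ : a ≠ Q := by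
    rintro rfl
    have h6 : b z x = 0 := by linear_combination e4
    have h7 : b x z = 0 := by
      apply mul_left_cancel₀ hQ
      rw [mul_zero, ← e2, h6, mul_zero]
    have h5 : b z z = 0 := by
      rw [h6, h7, mul_zero, zero_add] at e3
      exact e3
    exact hz0 h5 h6
  have h5 : b z z = 0 := by
    have h8 : (a - Q) * b z z = 0 := by linear_combination e1
    rcases mul_eq_zero.1 h8 with h9 | h9
    · exact absurd (sub_eq_zero.1 h9) haQ
    · exact h9
  have h6 : b z x ≠ 0 := fun h6 => hz0 h5 h6
  rw [h5, add_zero] at e3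
  have h8 : (a - Q) * ((a + Q) * b z x) = 0 := by linear_combination a * e2 + Q * e3
  rcases mul_eq_zero.1 h8 with h9 | h9
  · exact absurd (sub_eq_zero.1 h9) haQ
  · rcases mul_eq_zero.1 h9 with h10 | h10
    · have : a = -Q := by linear_combination h10
      rw [this]
      push_cast
      ring
    · exact absurd h10 h6

end Pool.Agent.Helper73.LF
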