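import Mathlib

/-!
# Jacobi sums of characters which are trivial on a subfield of index two
-/

open Finset

namespace Pool.Agent.Helper73.LF

section

variable {K₀ K L : Type*} [Field K₀] [Fintype K₀] [Field K] [Fintype K] [Algebra K₀ K] [Field L]

/-- the character is trivial on the nonzero elements of the subfield -/
def TrivialOn (K₀ : Type*) {K L : Type*} [Field K₀] [Field K] [Algebra K₀ K] [Field L]
    (χ : MulChar K L) : Prop := ∀ a : K₀, a ≠ 0 → χ (algebraMap K₀ K a) = 1

variable {χ χ' : MulChar K L}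

omit [Fintype K₀] [Fintype K] in
theorem TrivialOn.mul (h : TrivialOn K₀ χ) (h' : TrivialOn K₀ χ') : TrivialOn K₀ (χ * χ') := by
  intro a ha
  rw [MulChar.mul_apply, h a ha, h' a ha, one_mul]

omit [Fintype K] in
theorem TrivialOn.sum (h : TrivialOn K₀ χ) :
    ∑ a : K₀, χ (algebraMap K₀ K a) = (Fintype.card K₀ : L) - 1 := by
  classical
  have h1 : ∀ a : K₀, χ (algebraMap K₀ K a) = if a = 0 then 0 else 1 := by
    intro a
    split_ifs with ha
    · rw [ha, map_zero, MulChar.map_nonunit _ not_isUnit_zero]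
    · exact h a ha
  rw [sum_congr rfl fun a _ => h1 a, sum_ite, sum_const_zero, zero_add, sum_const,
    filter_ne' univ (0 : K₀), card_erase_of_mem (mem_univ _), card_univ, nsmul_eq_mul, mul_one,
    Nat.cast_sub Fintype.card_pos, Nat.cast_one]

theorem bijective_pair (hcard : Fintype.card K = Fintype.card K₀ ^ 2) {x : K}
    (hx : ∀ a : K₀, algebraMap K₀ K a ≠ x) :
    Function.Bijective (fun ab : K₀ × K₀ => algebraMap K₀ K ab.1 - algebraMap K₀ K ab.2 * x) := by
  rw [Fintype.bijective_iff_injective_and_card]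
  refine ⟨?_, by rw [Fintype.card_prod, hcard, pow_two]⟩
  rintro ⟨a, b⟩ ⟨a', b'⟩ h
  change algebraMap K₀ K a - algebraMap K₀ K b * x =
    algebraMap K₀ K a' - algebraMap K₀ K b' * x at h
  by_cases hb : b = b'
  · subst hb
    have h1 : algebraMap K₀ K a = algebraMap K₀ K a' := by linear_combination h
    rw [(algebraMap K₀ K).injective h1]
  · exfalso
    have h1 : algebraMap K₀ K (b - b') ≠ 0 := by
      rw [Ne, map_eq_zero]
      exact sub_ne_zero.2 hb
    apply hx ((a - a') / (b - b'))
    rw [map_div₀, div_eq_iff h1, map_sub, map_sub]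
    linear_combination h

theorem sum_coset (hcard : Fintype.card K = Fintype.card K₀ ^ 2) (h : TrivialOn K₀ χ)
    (hχ : χ ≠ 1) (hQ : (Fintype.card K₀ : L) ≠ 1) {x : K} (hx : ∀ a : K₀, algebraMap K₀ K a ≠ x) :
    ∑ a : K₀, χ (algebraMap K₀ K a - x) = -1 := by
  classical
  have h0 := MulChar.sum_eq_zero_of_ne_one hχ
  rw [← (bijective_pair hcard hx).sum_comp, Fintype.sum_prod_type, sum_comm] at h0
  have h1 : ∀ b : K₀, ∑ a : K₀, χ (algebraMap K₀ K a - algebraMap K₀ K b * x) =
      if b = 0 then (Fintype.card K₀ : L) - 1 else ∑ a : K₀, χ (algebraMap K₀ K a - x) := by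
    intro b
    split_ifs with hb
    · rw [hb, ← h.sum]
      refine sum_congr rfl fun a _ => ?_
      rw [map_zero, zero_mul, sub_zero]
    · rw [← Equiv.sum_comp (Equiv.mulLeft₀ b hb)]
      refine sum_congr rfl fun a _ => ?_
      simp only [Equiv.mulLeft₀_apply]
      rw [map_mul, ← mul_sub, map_mul, h b hb, one_mul]
  rw [sum_congr rfl fun b _ => h1 b, sum_ite, sum_const, sum_const, filter_ne' univ (0 : K₀),
    filter_eq' univ (0 : K₀), if_pos (mem_univ _), card_singleton, one_smul,
    card_erase_of_mem (mem_univ _), card_univ, nsmul_eq_mul, Nat.cast_sub Fintype.card_pos,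
    Nat.cast_one] at h0
  have h2 : ((Fintype.card K₀ : L) - 1) ≠ 0 := sub_ne_zero.2 hQ
  apply mul_left_cancel₀ h2
  linear_combination h0

theorem jacobi_pure (hcard : Fintype.card K = Fintype.card K₀ ^ 2) (h : TrivialOn K₀ χ)
    (h' : TrivialOn K₀ χ') (hχ : χ ≠ 1) (hχ' : χ' ≠ 1) (hχχ : χ * χ' ≠ 1)
    (hQ : (Fintype.card K₀ : L) ≠ 1) : jacobiSum χ χ' = Fintype.card K₀ := by
  classical
  -- the sum over all `s` in the subfield, in two ways
  have h1 : ∑ s : K₀, ∑ x : K, χ x * χ' (algebraMap K₀ K s - x) =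
      ((Fintype.card K₀ : L) - 1) * jacobiSum χ χ' := by
    have e : ∀ s : K₀, ∑ x : K, χ x * χ' (algebraMap K₀ K s - x) =
        if s = 0 then 0 else jacobiSum χ χ' := by
      intro s
      split_ifs with hs
      · have e1 : ∀ x : K, χ x * χ' (algebraMap K₀ K s - x) = χ' (-1) * (χ * χ') x := by
          intro x
          rw [hs, map_zero, zero_sub, ← neg_one_mul, map_mul, MulChar.mul_apply]
          ring
        rw [sum_congr rfl fun x _ => e1 x, ← mul_sum, MulChar.sum_eq_zero_of_ne_one hχχ, mul_zero]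
      · have hs' : algebraMap K₀ K s ≠ 0 := by rwa [Ne, map_eq_zero]
        rw [← Equiv.sum_comp (Equiv.mulLeft₀ _ hs'), jacobiSum]
        refine sum_congr rfl fun x _ => ?_
        simp only [Equiv.mulLeft₀_apply]
        have e2 : algebraMap K₀ K s - algebraMap K₀ K s * x =
            algebraMap K₀ K s * (1 - x) := by ring
        rw [e2, map_mul, map_mul, h s hs, h' s hs, one_mul, one_mul]
    rw [sum_congr rfl fun s _ => e s, sum_ite, sum_const_zero, zero_add, sum_const,
      filter_ne' univ (0 : K₀), card_erase_of_mem (mem_univ _), card_univ, nsmul_eq_mul,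
      Nat.cast_sub Fintype.card_pos, Nat.cast_one]
  have h2 : ∑ s : K₀, ∑ x : K, χ x * χ' (algebraMap K₀ K s - x) =
      ((Fintype.card K₀ : L) - 1) * Fintype.card K₀ := by
    rw [sum_comm]
    have e : ∀ x : K, ∑ s : K₀, χ x * χ' (algebraMap K₀ K s - x) =
        χ x * (-1) + if x ∈ univ.image (algebraMap K₀ K) then
          χ x * (Fintype.card K₀ : L) else 0 := by
      intro x
      rw [← mul_sum]
      split_ifs with hx
      · obtain ⟨a, _, rfl⟩ := mem_image.1 hx
        have e1 : ∑ s : K₀, χ' (algebraMap K₀ K s - algebraMap K₀ K a) =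
            (Fintype.card K₀ : L) - 1 := by
          rw [← h'.sum, ← Equiv.sum_comp (Equiv.subRight a) (fun s => χ' (algebraMap K₀ K s))]
          refine sum_congr rfl fun s _ => ?_
          rw [Equiv.subRight_apply, map_sub (algebraMap K₀ K)]
        rw [e1]
        ring
      · rw [sum_coset hcard h' hχ' hQ, add_zero]
        intro a ha
        exact hx (mem_image.2 ⟨a, mem_univ _, ha⟩)
    rw [sum_congr rfl fun x _ => e x, sum_add_distrib, ← sum_mul,
      MulChar.sum_eq_zero_of_ne_one hχ, zero_mul, zero_add, sum_ite_mem, univ_inter,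
      ← sum_mul, sum_image (fun a _ b _ hab => (algebraMap K₀ K).injective hab), h.sum]
  have h3 : ((Fintype.card K₀ : L) - 1) ≠ 0 := sub_ne_zero.2 hQ
  apply mul_left_cancel₀ h3
  rw [← h1, h2]

end

end Pool.Agent.Helper73.LF
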