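import Pool.Agent.Helper73.LF.Eight
import Pool.Agent.Helper73.LF.Pure
import Pool.Agent.Helper73.KT.Core

/-!
# The sums over the Legendre family modulo eight and modulo a prime over `r`
-/

open Finset

namespace Pool.Agent.Helper73.LF

open Pool.Agent.Helper73.KT

section

variable {K L : Type*} [Field K] [Fintype K] [DecidableEq K] [Field L] [CharZero L]

/-- the quadratic character with values in `L` -/
noncomputable def eta (K L : Type*) [Field K] [Fintype K] [DecidableEq K] [Field L] :
    MulChar K L := (quadraticChar K).ringHomComp (Int.castRingHom L)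

omit [CharZero L] in
theorem eta_apply (x : K) : eta K L x = (quadraticChar K x : L) := rfl

theorem eta_ne_one (h2 : ringChar K ≠ 2) : eta K L ≠ 1 := by
  intro h
  apply quadraticChar_ne_one h2
  apply MulChar.ext'
  intro x
  have h1 : eta K L x = (1 : MulChar K L) x := by rw [h]
  rw [eta_apply] at h1
  by_cases hx : IsUnit x
  · rw [MulChar.one_apply hx] at h1 ⊢
    exact_mod_cast h1
  · rw [MulChar.map_nonunit _ hx, MulChar.map_nonunit _ hx]

omit [CharZero L] in
theorem eta_quadratic : (eta K L).IsQuadratic :=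
  (quadraticChar_isQuadratic K).comp _

variable {α β : MulChar K L}

omit [CharZero L] in
theorem leg_eq : legSum (eta K L) α β = ∑ t, (tr t : L) * (α t * β (1 - t)) := by
  rw [legSum]
  refine sum_congr rfl fun t _ => ?_
  rw [tr, Int.cast_sum, sum_mul]
  rfl

/-- a rational integer divisible in the ring of algebraic integers -/
theorem int_dvd {z : L} (hz : IsIntegral ℤ z) {a m : ℤ} (ha : a ≠ 0) (h : (a : L) * z = m) :
    a ∣ m := by
  have haL : (a : L) ≠ 0 := Int.cast_ne_zero.2 ha
  have h1 : z = algebraMap ℚ L ((m : ℚ) / a) := by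
    rw [map_div₀, map_intCast, map_intCast, eq_div_iff haL, mul_comm, h]
  rw [h1, isIntegral_algebraMap_iff (algebraMap ℚ L).injective,
    IsIntegrallyClosed.isIntegral_iff] at hz
  obtain ⟨k, hk⟩ := hz
  refine ⟨k, ?_⟩
  have haQ : (a : ℚ) ≠ 0 := Int.cast_ne_zero.2 ha
  rw [eq_div_iff haQ] at hk
  have h2 : (m : ℚ) = ((a * k : ℤ) : ℚ) := by
    rw [← hk]
    push_cast
    rw [mul_comm]
    rfl
  exact_mod_cast h2

omit [DecidableEq K] [CharZero L] in
theorem char_integral (χ : MulChar K L) (x : K) : IsIntegral ℤ (χ x) := by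
  by_cases hx : x = 0
  · rw [hx, MulChar.map_nonunit _ not_isUnit_zero]
    exact isIntegral_zero
  · have h1 : χ x ^ (Fintype.card K - 1) = 1 := by
      rw [← map_pow, FiniteField.pow_card_sub_one_eq_one x hx, map_one]
    have h2 : IsIntegral ℤ (χ x ^ (Fintype.card K - 1)) := by rw [h1]; exact isIntegral_one
    exact h2.of_pow (by have := Fintype.one_lt_card (α := K); omega)

/-- the sum modulo eight -/
theorem leg_eight (h2 : ringChar K ≠ 2) (hneg : quadraticChar K (-1) = 1) :
    ∃ z : L, IsIntegral ℤ z ∧ legSum (eta K L) α β = 8 * z +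
      ((8 - Fintype.card K) * jacobiSum α β + 3 * jacobiSum (eta K L * α) β +
        3 * jacobiSum α (eta K L * β) + jacobiSum (eta K L * α) (eta K L * β)) := by
  have h3 : ∀ t : K, ∃ m : ℤ, (tr t : L) * (α t * β (1 - t)) = 8 * ((m : L) * (α t * β (1 - t))) +
      ((8 - Fintype.card K) * (α t * β (1 - t)) + 3 * ((eta K L * α) t * β (1 - t)) +
        3 * (α t * (eta K L * β) (1 - t)) + (eta K L * α) t * (eta K L * β) (1 - t)) := by
    intro t
    by_cases ht : t = 0
    · refine ⟨0, ?_⟩
      rw [ht, MulChar.map_nonunit α not_isUnit_zero,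
        MulChar.map_nonunit (eta K L * α) not_isUnit_zero]
      ring
    by_cases ht1 : t = 1
    · refine ⟨0, ?_⟩
      rw [ht1, sub_self, MulChar.map_nonunit β not_isUnit_zero,
        MulChar.map_nonunit (eta K L * β) not_isUnit_zero]
      ring
    obtain ⟨m, hm⟩ := tr_eight h2 hneg ht ht1
    refine ⟨m, ?_⟩
    have h4 : (tr t : L) = 8 * m + (8 - Fintype.card K + 3 * quadraticChar K t +
        3 * quadraticChar K (1 - t) + quadraticChar K t * quadraticChar K (1 - t)) := by
      have h5 : tr t = 8 * m + (8 - Fintype.card K + 3 * quadraticChar K t +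
        3 * quadraticChar K (1 - t) + quadraticChar K t * quadraticChar K (1 - t)) := by
        linear_combination hm
      rw [h5]
      push_cast
      ring
    rw [h4, MulChar.mul_apply, MulChar.mul_apply, eta_apply, eta_apply]
    ring
  choose m hm using h3
  refine ⟨∑ t, (m t : L) * (α t * β (1 - t)), ?_, ?_⟩
  · refine IsIntegral.sum _ fun t _ => (isIntegral_intCast _).mul
      ((char_integral α t).mul (char_integral β _))
  · rw [leg_eq, sum_congr rfl fun t _ => hm t, sum_add_distrib, ← mul_sum, sum_add_distrib,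
      sum_add_distrib, sum_add_distrib, ← mul_sum, ← mul_sum, ← mul_sum]
    rfl

end

section pure

variable {K₀ K L : Type*} [Field K₀] [Fintype K₀] [Field K] [Fintype K] [DecidableEq K]
    [Algebra K₀ K] [Field L] [CharZero L] {α β : MulChar K L}

theorem eta_trivialOn (hcard : Fintype.card K = Fintype.card K₀ ^ 2) (h2 : ringChar K ≠ 2) :
    TrivialOn K₀ (eta K L) := by
  intro a ha
  have ha' : algebraMap K₀ K a ≠ 0 := by rwa [Ne, map_eq_zero]
  have hodd : Fintype.card K % 2 = 1 := FiniteField.odd_card_of_char_ne_two h2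
  have h3 : quadraticChar K (algebraMap K₀ K a) = 1 := by
    rw [quadraticChar_one_iff_isSquare ha', FiniteField.isSquare_iff h2 ha']
    rcases Nat.even_or_odd' (Fintype.card K₀) with ⟨k, hk | hk⟩
    · exfalso
      have h3 : Fintype.card K = 2 * (k * (2 * k)) := by rw [hcard, hk]; ring
      omega
    · have h4 : Fintype.card K / 2 = (Fintype.card K₀ - 1) * (k + 1) := by
        have h5 : Fintype.card K = 2 * ((Fintype.card K₀ - 1) * (k + 1)) + 1 := by
          rw [hcard, hk]
          simp only [Nat.add_sub_cancel]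
          ring
        omega
      rw [h4, pow_mul, ← map_pow, FiniteField.pow_card_sub_one_eq_one a ha, map_one, one_pow]
  rw [eta_apply, h3, Int.cast_one]

/-- the values of the Jacobi sums of characters which are trivial on the subfield -/
theorem pure_inv (h2 : ringChar K ≠ 2) (h : TrivialOn K₀ α) (hα : α ≠ 1) (hαβ : α * β = 1) :
    jacobiSum α β = -1 := by
  have hβ : β = α⁻¹ := (inv_eq_of_mul_eq_one_right hαβ).symm
  rw [hβ, jacobiSum_nontrivial_inv hα]
  have h3 := h (-1) (neg_ne_zero.2 one_ne_zero)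
  rw [map_neg, map_one] at h3
  rw [h3]

/-- In the pure case the sum is congruent to `2` modulo `8` if the number of elements of the
subfield is congruent to `3` modulo `4`. -/
theorem leg_pure (hcard : Fintype.card K = Fintype.card K₀ ^ 2) (h2 : ringChar K ≠ 2)
    (h4 : Fintype.card K₀ % 4 = 3) (hα : TrivialOn K₀ α) (hβ : TrivialOn K₀ β) (hα1 : α ≠ 1)
    (hβ1 : β ≠ 1) (hαβ : α * β ≠ eta K L) :
    legSum (eta K L) α β ≠ -2 * Fintype.card K := by
  set ρ := eta K L with hρ
  have hρ1 : ρ ≠ 1 := eta_ne_one h2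
  have hρρ : ρ * ρ = 1 := by rw [← pow_two]; exact eta_quadratic.sq_eq_one
  have hρT : TrivialOn K₀ ρ := eta_trivialOn hcard h2
  have hneg : quadraticChar K (-1) = 1 := by
    have h3 := hρT (-1) (neg_ne_zero.2 one_ne_zero)
    rw [map_neg, map_one, hρ, eta_apply] at h3
    exact_mod_cast h3
  have hQ1 : (Fintype.card K₀ : L) ≠ 1 := by
    have h3 : Fintype.card K₀ ≠ 1 := by omega
    exact_mod_cast h3
  have hmul : ∀ χ : MulChar K L, ρ * χ = 1 ↔ χ = ρ := by
    intro χ
    constructor
    · intro h
      rw [← one_mul χ, ← hρρ, mul_assoc, h, mul_one]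
    · rintro rfl
      exact hρρ
  -- the value of the sum of Jacobi sums
  have key : ∃ c : ℤ, (8 - Fintype.card K) * jacobiSum α β + 3 * jacobiSum (ρ * α) β +
      3 * jacobiSum α (ρ * β) + jacobiSum (ρ * α) (ρ * β) = (c : L) ∧ c % 8 = 2 := by
    obtain ⟨k, hk⟩ : ∃ k, Fintype.card K₀ = 4 * k + 3 := ⟨Fintype.card K₀ / 4, by omega⟩
    have hK : Fintype.card K = 16 * k ^ 2 + 24 * k + 9 := by rw [hcard, hk]; ring
    by_cases c1 : α = ρ
    · by_cases c2 : β = ρ
      · refine ⟨2 * (Fintype.card K : ℤ) - 16, ?_, ?_⟩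
        · rw [c1, c2, hρρ, pure_inv h2 hρT hρ1 hρρ, jacobiSum_one_nontrivial hρ1,
            jacobiSum_comm, jacobiSum_one_nontrivial hρ1, jacobiSum_one_one]
          push_cast
          ring
        · rw [hK]; push_cast; ring_nf; omega
      · refine ⟨(8 - Fintype.card K) * Fintype.card K₀ - 3 + 3 * Fintype.card K₀ - 1, ?_, ?_⟩
        · have e1 : ρ * β ≠ 1 := fun h => c2 ((hmul β).1 h)
          rw [c1, hρρ, jacobi_pure hcard hρT hβ hρ1 hβ1 e1 hQ1, jacobiSum_one_nontrivial hβ1,
            jacobi_pure hcard hρT (hρT.mul hβ) hρ1 e1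
              (by rw [← mul_assoc, hρρ, one_mul]; exact hβ1) hQ1, jacobiSum_one_nontrivial e1]
          push_cast
          ring
        · rw [hK, hk]; push_cast; ring_nf; omega
    · have e0 : ρ * α ≠ 1 := fun h => c1 ((hmul α).1 h)
      by_cases c2 : β = ρ
      · refine ⟨(8 - Fintype.card K) * Fintype.card K₀ + 3 * Fintype.card K₀ - 3 - 1, ?_, ?_⟩
        · rw [c2, hρρ, jacobi_pure hcard hα hρT hα1 hρ1 (by rw [mul_comm]; exact e0) hQ1,
            jacobi_pure hcard (hρT.mul hα) hρT e0 hρ1
              (by rw [mul_right_comm, hρρ, one_mul]; exact hα1) hQ1,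
            jacobiSum_comm α 1, jacobiSum_one_nontrivial hα1, jacobiSum_comm (ρ * α) 1,
            jacobiSum_one_nontrivial e0]
          push_cast
          ring
        · rw [hK, hk]; push_cast; ring_nf; omega
      · have e1 : ρ * β ≠ 1 := fun h => c2 ((hmul β).1 h)
        have e2 : ρ * α * β ≠ 1 := by
          rw [mul_assoc]
          exact fun h => hαβ ((hmul _).1 h)
        have e3 : α * (ρ * β) ≠ 1 := by
          rw [mul_left_comm]
          exact fun h => hαβ ((hmul _).1 h)
        by_cases c3 : α * β = 1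
        · refine ⟨-(8 - Fintype.card K) + 6 * Fintype.card K₀ - 1, ?_, ?_⟩
          · have e4 : ρ * α * (ρ * β) = 1 := by
              rw [mul_mul_mul_comm, hρρ, c3, one_mul]
            rw [pure_inv h2 hα hα1 c3, jacobi_pure hcard (hρT.mul hα) hβ e0 hβ1 e2 hQ1,
              jacobi_pure hcard hα (hρT.mul hβ) hα1 e1 e3 hQ1,
              pure_inv h2 (hρT.mul hα) e0 e4]
            push_cast
            ring
          · rw [hK, hk]; push_cast; ring_nf; omega
        · refine ⟨(15 - Fintype.card K) * Fintype.card K₀, ?_, ?_⟩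
          · have e4 : ρ * α * (ρ * β) ≠ 1 := by
              rw [mul_mul_mul_comm, hρρ, one_mul]
              exact c3
            rw [jacobi_pure hcard hα hβ hα1 hβ1 c3 hQ1,
              jacobi_pure hcard (hρT.mul hα) hβ e0 hβ1 e2 hQ1,
              jacobi_pure hcard hα (hρT.mul hβ) hα1 e1 e3 hQ1,
              jacobi_pure hcard (hρT.mul hα) (hρT.mul hβ) e0 e1 e4 hQ1]
            push_cast
            ring
          · rw [hK, hk]; push_cast; ring_nf; omega
  intro hS
  obtain ⟨c, hc, hc8⟩ := key
  obtain ⟨z, hz, hS'⟩ := leg_eight (α := α) (β := β) h2 hneg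
  rw [hS, hc] at hS'
  have h5 : ((8 : ℤ) : L) * z = ((-2 * Fintype.card K - c : ℤ) : L) := by
    push_cast
    linear_combination -hS'
  have h6 := int_dvd hz (by norm_num) h5
  obtain ⟨k, hk⟩ : ∃ k, Fintype.card K₀ = 4 * k + 3 := ⟨Fintype.card K₀ / 4, by omega⟩
  have hK : (Fintype.card K : ℤ) = 16 * k ^ 2 + 24 * k + 9 := by rw [hcard, hk]; push_cast; ring
  rw [hK] at h6
  omega

end pure

section residue

variable {K L : Type*} [Field K] [Fintype K] [DecidableEq K] [Field L] [CharZero L]
    {α β : MulChar K L}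

/-- the sum for characters of order a power of an odd prime `r` -/
theorem leg_residue {r e : ℕ} [Fact r.Prime] (hr : r ≠ 2) (h2 : ringChar K ≠ 2)
    (hneg : quadraticChar K (-1) = 1) (hα : α ^ r ^ e = 1) (hβ : β ^ r ^ e = 1)
    (hK : Fintype.card K % r = 1) : legSum (eta K L) α β ≠ -2 * Fintype.card K := by
  have hrp : r.Prime := Fact.out
  have hnd : NotDvd r (((1 : integralClosure ℤ L)) : L) := by
    intro N hN
    have h1 : ((r : ℤ) : L) * (((1 : integralClosure ℤ L) : L) ^ N / r) = ((1 : ℤ) : L) := by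
      have hr0 : (r : L) ≠ 0 := Nat.cast_ne_zero.2 hrp.ne_zero
      push_cast
      rw [one_pow, mul_div_cancel₀ _ hr0]
    have h3 := int_dvd hN (by exact_mod_cast hrp.ne_zero) h1
    have h5 : r ∣ 1 := by exact_mod_cast h3
    exact hrp.one_lt.ne' (Nat.dvd_one.1 h5)
  obtain ⟨M, hM, hrM, _⟩ := exists_maximal hnd
  let : Field (integralClosure ℤ L ⧸ M) := Ideal.Quotient.field M
  have hch : CharP (integralClosure ℤ L ⧸ M) r := by
    rw [CharP.charP_iff_prime_eq_zero hrp]
    have := Ideal.Quotient.eq_zero_iff_mem.2 hrM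
    rwa [map_natCast] at this
  set φ := Ideal.Quotient.mk M with hφ
  have hone : ∀ {χ : MulChar K L}, χ ^ r ^ e = 1 → ∀ x : K, x ≠ 0 → res φ (χ x) = 1 := by
    intro χ hχ x hx
    apply eq_one_of_pow (r := r) (e := e)
    rw [← res_pow φ (char_integral χ x), ← MulChar.pow_apply' χ (pow_pos hrp.pos e).ne', hχ,
      MulChar.one_apply (isUnit_iff_ne_zero.2 hx)]
    have := res_natCast φ 1
    simpa using this
  intro hS
  have h3 := congrArg (res φ) hS
  have hint : ∀ m : ℤ, res φ (m : L) = m := by
    intro m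
    rw [res_eq φ (isIntegral_intCast m)]
    have h4 : (⟨(m : L), isIntegral_intCast m⟩ : integralClosure ℤ L) = (m : integralClosure ℤ L) := by
      apply Subtype.ext
      simp
    rw [h4, map_intCast]
  rw [leg_eq, res_sum φ _ _ (fun t _ => (isIntegral_intCast _).mul
    ((char_integral α t).mul (char_integral β _)))] at h3
  have h4 : ∀ t : K, res φ ((tr t : L) * (α t * β (1 - t))) =
      (((if t = 0 ∨ t = 1 then 0 else tr t : ℤ)) : integralClosure ℤ L ⧸ M) := by
    intro t
    rw [res_mul φ (isIntegral_intCast _) ((char_integral α t).mul (char_integral β _)),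
      res_mul φ (char_integral α t) (char_integral β _), hint]
    have hz : res φ (0 : L) = 0 := by
      have := res_natCast φ 0
      simpa using this
    split_ifs with ht
    · rcases ht with ht | ht
      · rw [ht, MulChar.map_nonunit α not_isUnit_zero, hz, zero_mul, mul_zero, Int.cast_zero]
      · rw [ht, sub_self, MulChar.map_nonunit β not_isUnit_zero, hz, mul_zero, mul_zero,
          Int.cast_zero]
    · rw [not_or] at ht
      rw [hone hα t ht.1, hone hβ (1 - t) (sub_ne_zero.2 (Ne.symm ht.2)), mul_one, mul_one]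
  rw [sum_congr rfl fun t _ => h4 t, ← Int.cast_sum, sum_tr h2, hneg] at h3
  have h5 : (-2 * Fintype.card K : L) = ((-2 * Fintype.card K : ℤ) : L) := by push_cast; ring
  rw [h5, hint] at h3
  have h6 : (Fintype.card K : integralClosure ℤ L ⧸ M) = ((1 : ℕ) : integralClosure ℤ L ⧸ M) := by
    rw [CharP.natCast_eq_natCast (integralClosure ℤ L ⧸ M) r, Nat.ModEq, hK,
      Nat.mod_eq_of_lt hrp.one_lt]
  have h7 : ((4 : ℕ) : integralClosure ℤ L ⧸ M) = 0 := by
    push_cast at h3 h6 ⊢
    linear_combination h3 - 2 * h6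
  rw [CharP.cast_eq_zero_iff (integralClosure ℤ L ⧸ M) r] at h7
  have h8 : r ∣ 2 := by
    have : (4 : ℕ) = 2 ^ 2 := by norm_num
    rw [this] at h7
    exact hrp.dvd_of_dvd_pow h7
  have h9 := Nat.le_of_dvd two_pos h8
  have := hrp.two_le
  omega

end residue

end Pool.Agent.Helper73.LF
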