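import Pool.Agent.Helper73.LF.Cross
import Pool.Agent.Helper73.LF.Res

/-!
# The sums over the Legendre family modulo the third power of a uniformiser
-/

open Finset

namespace Pool.Agent.Helper73.LF

section exact

variable {K R : Type*} [Field K] [Fintype K] [DecidableEq K] [CommRing R] [IsDomain R]

/-- the sum of the values of the character at `u` and of the quadratic character at `1 - u` -/
def jr (α : MulChar K R) : R := ∑ u : K, α u * rh R (1 - u)

variable {α β : MulChar K R}

omit [DecidableEq K] [Fintype K] [IsDomain R] in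
theorem map_zero' (χ : MulChar K R) : χ 0 = 0 := χ.map_nonunit not_isUnit_zero

omit [IsDomain R] in
theorem sum_tr_mul (hneg : quadraticChar K (-1) = 1) :
    ∑ t : K, (tr t : R) * α t = jr α ^ 2 := by
  have h1 : ∀ x : K, ∑ t : K, rh R (x * (x - 1) * (x - t)) * α t =
      rh R (1 - x) * α x * jr α := by
    intro x
    by_cases hx : x = 0
    · subst hx
      have e0 : rh R (1 - (0 : K)) * α 0 * jr α = 0 := by rw [map_zero' α, mul_zero, zero_mul]
      rw [e0]
      refine sum_eq_zero fun t _ => ?_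
      rw [zero_mul, zero_mul, rh_zero, zero_mul]
    · rw [← Equiv.sum_comp (Equiv.mulLeft₀ x hx), jr, mul_sum]
      refine sum_congr rfl fun u _ => ?_
      simp only [Equiv.mulLeft₀_apply]
      have e : x * (x - 1) * (x - x * u) = -(x * x * ((1 - x) * (1 - u))) := by ring
      rw [e, rh_neg hneg, rh_mul (x * x), rh_mul x x, rh_sq hx, one_mul, rh_mul, map_mul]
      ring
  have h2 : ∑ t : K, (tr t : R) * α t =
      ∑ x : K, ∑ t : K, rh R (x * (x - 1) * (x - t)) * α t := by
    rw [sum_comm]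
    refine sum_congr rfl fun t _ => ?_
    rw [tr, Int.cast_sum, sum_mul]
    rfl
  rw [h2, sum_congr rfl fun x _ => h1 x, ← sum_mul, pow_two]
  congr 1
  rw [jr]
  refine sum_congr rfl fun x _ => ?_
  ring

theorem tr_one_sub (hneg : quadraticChar K (-1) = 1) (t : K) : tr (1 - t) = tr t := by
  rw [tr, tr, ← Equiv.sum_comp (Equiv.subLeft (1 : K))]
  refine sum_congr rfl fun x _ => ?_
  rw [Equiv.subLeft_apply]
  have e : (1 - x) * (1 - x - 1) * (1 - x - (1 - t)) = -1 * (x * (x - 1) * (x - t)) := by ring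
  rw [e, map_mul, hneg, one_mul]

omit [IsDomain R] in
/-- the sum over the Legendre family without the terms given by Jacobi sums -/
theorem leg_split (h2 : ringChar K ≠ 2) (hneg : quadraticChar K (-1) = 1) :
    ∑ t : K, (tr t : R) * (α t * β (1 - t)) = jr α ^ 2 + jr β ^ 2 +
      ∑ t : K, ee R t * ((tr t : R) * ((α t - 1) * (β (1 - t) - 1))) := by
  have h0 : (tr (0 : K) : R) = -1 := by rw [tr_zero h2, hneg]; push_cast; ring
  have h1 : (tr (1 : K) : R) = -1 := by rw [tr_one h2]; push_cast; ring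
  have hβ : ∑ t : K, (tr t : R) * β (1 - t) = jr β ^ 2 := by
    rw [← sum_tr_mul hneg, ← Equiv.sum_comp (Equiv.subLeft (1 : K))]
    refine sum_congr rfl fun t _ => ?_
    rw [Equiv.subLeft_apply, tr_one_sub hneg, sub_sub_cancel]
  have hall : ∑ t : K, (tr t : R) = 0 := by
    rw [← Int.cast_sum, sum_tr_all h2, Int.cast_zero]
  have e1 := sum_ee (fun t : K => (tr t : R) * (α t * β (1 - t)))
  have e2 := sum_ee (fun t : K => (tr t : R) * α t)
  have e3 := sum_ee (fun t : K => (tr t : R) * β (1 - t))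
  have e4 := sum_ee (fun t : K => (tr t : R))
  have e5 : ∑ t : K, ee R t * ((tr t : R) * ((α t - 1) * (β (1 - t) - 1))) =
      ∑ t : K, ee R t * ((tr t : R) * (α t * β (1 - t))) -
      ∑ t : K, ee R t * ((tr t : R) * α t) - ∑ t : K, ee R t * ((tr t : R) * β (1 - t)) +
      ∑ t : K, ee R t * (tr t : R) := by
    simp only [← sum_add_distrib, ← sum_sub_distrib]
    refine sum_congr rfl fun t _ => ?_
    ring
  rw [e5, e1, e2, e3, e4, sum_tr_mul hneg, hβ, hall, h0, h1]
  simp only [map_zero', sub_self, sub_zero, map_one, mul_zero, mul_one]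
  ring

/-- a logarithm from a character with values congruent to one -/
theorem isLog_of {π : R} (hπ : π ≠ 0) {a : K → R} (ha0 : a 0 = 0)
    (ha : ∀ t : K, t ≠ 0 → α t = 1 + π * a t) (h1 : α (-1) = 1) (h2 : ringChar K ≠ 2)
    (hs : ∑ x : K, rh R x * α x = 0) :
    IsLog (fun t => Ideal.Quotient.mk (Ideal.span {π}) (a t)) := by
  have hn : (-1 : K) ≠ 0 := neg_ne_zero.2 one_ne_zero
  refine ⟨by rw [ha0, map_zero], ?_, ?_, ?_⟩
  · intro x y hx hy
    have e1 := ha (x * y) (mul_ne_zero hx hy)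
    rw [map_mul, ha x hx, ha y hy] at e1
    have e2 : a (x * y) = a x + a y + π * (a x * a y) := by
      apply mul_left_cancel₀ hπ
      linear_combination -e1
    have e3 : Ideal.Quotient.mk (Ideal.span {π}) π = 0 :=
      Ideal.Quotient.eq_zero_iff_mem.2 (Ideal.mem_span_singleton_self π)
    rw [e2, map_add, map_add, map_mul, e3, zero_mul, add_zero]
  · have e1 := ha (-1) hn
    rw [h1] at e1
    have e2 : a (-1) = 0 := by
      apply mul_left_cancel₀ hπ
      linear_combination -e1
    change Ideal.Quotient.mk (Ideal.span {π}) (a (-1)) = 0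
    rw [e2, map_zero]
  · have e1 : ∑ x : K, rh R x * a x = 0 := by
      apply mul_left_cancel₀ hπ
      rw [mul_zero, mul_sum]
      have e2 : ∀ x : K, π * (rh R x * a x) = rh R x * α x - rh R x := by
        intro x
        by_cases hx : x = 0
        · rw [hx, rh_zero]
          ring
        · rw [ha x hx]
          ring
      rw [sum_congr rfl fun x _ => e2 x, sum_sub_distrib, hs, sum_rh h2, sub_zero]
    have e3 := congrArg (Ideal.Quotient.mk (Ideal.span {π})) e1
    rw [map_sum, map_zero] at e3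
    rw [← e3]
    refine sum_congr rfl fun x _ => ?_
    rw [map_mul, rh, rh, map_intCast]

/-- the remaining sum is divisible by the third power -/
theorem rest_dvd {π : R} (hπ : π ≠ 0) (h2 : ringChar K ≠ 2) (hneg : quadraticChar K (-1) = 1)
    (hα : ∀ t : K, t ≠ 0 → π ∣ α t - 1) (hβ : ∀ t : K, t ≠ 0 → π ∣ β t - 1)
    (hα1 : α (-1) = 1) (hβ1 : β (-1) = 1) (hsα : ∑ x : K, rh R x * α x = 0)
    (hsβ : ∑ x : K, rh R x * β x = 0) (hsαβ : ∑ x : K, rh R x * (α x * β x) = 0) :
    π ^ 3 ∣ ∑ t : K, (tr t : R) * (α t * β (1 - t)) - (jr α ^ 2 + jr β ^ 2) := by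
  have ex : ∀ χ : MulChar K R, (∀ t : K, t ≠ 0 → π ∣ χ t - 1) →
      ∃ a : K → R, a 0 = 0 ∧ ∀ t : K, t ≠ 0 → χ t = 1 + π * a t := by
    intro χ hχ
    choose! a ha using hχ
    refine ⟨fun t => if t = 0 then 0 else a t, if_pos rfl, fun t ht => ?_⟩
    change χ t = 1 + π * (if t = 0 then 0 else a t)
    rw [if_neg ht, ← ha t ht]
    ring
  obtain ⟨a, ha0, ha⟩ := ex α hα
  obtain ⟨b, hb0, hb⟩ := ex β hβ
  have hf := isLog_of hπ ha0 ha hα1 h2 hsα
  have hg := isLog_of hπ hb0 hb hβ1 h2 hsβ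
  have hfg : ∑ x : K, rh (R ⧸ Ideal.span {π}) x * (Ideal.Quotient.mk (Ideal.span {π}) (a x) *
      Ideal.Quotient.mk (Ideal.span {π}) (b x)) = 0 := by
    have e1 : ∑ x : K, rh R x * (a x * b x) = 0 := by
      apply mul_left_cancel₀ (mul_ne_zero hπ hπ)
      rw [mul_zero, mul_sum]
      have e2 : ∀ x : K, π * π * (rh R x * (a x * b x)) = rh R x * (α x * β x) - rh R x * α x -
          rh R x * β x + rh R x := by
        intro x
        by_cases hx : x = 0
        · rw [hx, rh_zero]
          ring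
        · rw [ha x hx, hb x hx]
          ring
      rw [sum_congr rfl fun x _ => e2 x, sum_add_distrib, sum_sub_distrib, sum_sub_distrib, hsα,
        hsβ, hsαβ, sum_rh h2]
      ring
    have e3 := congrArg (Ideal.Quotient.mk (Ideal.span {π})) e1
    rw [map_sum, map_zero] at e3
    rw [← e3]
    refine sum_congr rfl fun x _ => ?_
    rw [map_mul, map_mul, rh, rh, map_intCast]
  have hc := cross h2 hneg hf hg hfg
  have hz : Ideal.Quotient.mk (Ideal.span {π})
      (∑ t : K, ee R t * ((tr t : R) * (a t * b (1 - t)))) = 0 := by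
    rw [map_sum, ← hc]
    refine sum_congr rfl fun t _ => ?_
    rw [map_mul, map_mul, map_mul, map_intCast, ee, ee]
    split_ifs
    · rw [map_zero]
    · rw [map_one]
  rw [Ideal.Quotient.eq_zero_iff_mem, Ideal.mem_span_singleton] at hz
  obtain ⟨z, hz⟩ := hz
  refine ⟨z, ?_⟩
  rw [leg_split h2 hneg, add_sub_cancel_left]
  have e6 : ∀ t : K, ee R t * ((tr t : R) * ((α t - 1) * (β (1 - t) - 1))) =
      π ^ 2 * (ee R t * ((tr t : R) * (a t * b (1 - t)))) := by
    intro t
    by_cases ht : t = 0 ∨ t = 1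
    · rw [ee, if_pos ht]
      ring
    · rw [not_or] at ht
      rw [ha t ht.1, hb (1 - t) (sub_ne_zero.2 (Ne.symm ht.2))]
      ring
  rw [sum_congr rfl fun t _ => e6 t, ← mul_sum, hz]
  ring

omit [IsDomain R] in
/-- the duplication formula -/
theorem jr_eq (hc : ∑ x : K, α x = 0) (h2 : ringChar K ≠ 2) : jr α = α 4 * jacobiSum α α := by
  have h20 : (2 : K) ≠ 0 := Ring.two_ne_zero h2
  have h1 : α 4 * jacobiSum α α = ∑ s : K, α (1 - s * s) := by
    rw [jacobiSum, mul_sum, ← Equiv.sum_comp ((Equiv.mulLeft₀ (2 : K) h20).trans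
      (Equiv.subLeft (1 : K))) (fun s => α (1 - s * s))]
    refine sum_congr rfl fun x _ => ?_
    simp only [Equiv.trans_apply, Equiv.mulLeft₀_apply, Equiv.subLeft_apply]
    rw [← map_mul, ← map_mul]
    congr 1
    ring
  have h3 : ∑ s : K, α (1 - s * s) = ∑ u : K, (1 + rh R u) * α (1 - u) := by
    have e : ∀ u : K, (1 + rh R u) * α (1 - u) =
        ∑ s : K, if s * s = u then α (1 - s * s) else 0 := by
      intro u
      have e1 : ∀ s : K, (if s * s = u then α (1 - s * s) else 0) =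
          if s ∈ univ.filter (fun s : K => s ^ 2 = u) then α (1 - u) else 0 := by
        intro s
        simp only [mem_filter, mem_univ, true_and, pow_two]
        split_ifs with h
        · rw [h]
        · rfl
      rw [sum_congr rfl fun s _ => e1 s, sum_ite_mem, univ_inter, sum_const, nsmul_eq_mul]
      congr 1
      have e2 := quadraticChar_card_sqrts h2 u
      have e3 : ({x : K | x ^ 2 = u} : Set K).toFinset = univ.filter (fun s : K => s ^ 2 = u) := by
        ext x
        simp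
      rw [e3] at e2
      have e4 : (((univ.filter (fun s : K => s ^ 2 = u)).card : ℤ) : R) =
          ((quadraticChar K u + 1 : ℤ) : R) := by rw [e2]
      rw [Int.cast_natCast] at e4
      rw [e4, rh]
      push_cast
      ring
    rw [sum_congr rfl fun u _ => e u, sum_comm]
    refine sum_congr rfl fun s _ => ?_
    rw [sum_ite_eq univ, if_pos (mem_univ _)]
  rw [h1, h3, jr, ← Equiv.sum_comp (Equiv.subLeft (1 : K))]
  have e : ∀ u : K, (1 + rh R u) * α (1 - u) = α (1 - u) + α ((Equiv.subLeft (1 : K)) u) *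
      rh R (1 - (Equiv.subLeft (1 : K)) u) := by
    intro u
    rw [Equiv.subLeft_apply, sub_sub_cancel]
    ring
  rw [sum_congr rfl fun u _ => e u, sum_add_distrib]
  have e2 : ∑ u : K, α (1 - u) = 0 := by
    rw [← hc, ← Equiv.sum_comp (Equiv.subLeft (1 : K)) (fun x => α x)]
    rfl
  rw [e2, zero_add]

end exact

section lift

open Pool.Agent.Helper73.KT

variable {K L : Type*} [Field K] [Fintype K] [DecidableEq K] [Field L] [CharZero L]

omit [CharZero L] in
/-- the character with values in the ring of algebraic integers -/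
noncomputable def liftR (χ : MulChar K L) : MulChar K (integralClosure ℤ L) where
  toFun x := ⟨χ x, char_integral χ x⟩
  map_one' := Subtype.ext (map_one χ)
  map_mul' x y := Subtype.ext (map_mul χ x y)
  map_nonunit' _ hx := Subtype.ext (χ.map_nonunit hx)

omit [DecidableEq K] [CharZero L] in
theorem liftR_coe (χ : MulChar K L) (x : K) : ((liftR χ x : integralClosure ℤ L) : L) = χ x := rfl

omit [CharZero L] in
theorem rh_coe (x : K) : ((rh (integralClosure ℤ L) x : integralClosure ℤ L) : L) =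
    eta K L x := by
  rw [rh, eta_apply]
  simp

omit [CharZero L] in
theorem jr_coe (χ : MulChar K L) : ((jr (liftR χ) : integralClosure ℤ L) : L) =
    jacobiSum χ (eta K L) := by
  rw [jr, jacobiSum]
  have h := map_sum (algebraMap (integralClosure ℤ L) L)
    (fun u : K => liftR χ u * rh (integralClosure ℤ L) (1 - u)) univ
  refine h.trans (sum_congr rfl fun u _ => ?_)
  rw [map_mul]
  change ((liftR χ u : integralClosure ℤ L) : L) *
    ((rh (integralClosure ℤ L) (1 - u) : integralClosure ℤ L) : L) = _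
  rw [liftR_coe, rh_coe]

omit [CharZero L] in
theorem leg_coe (α β : MulChar K L) :
    ((∑ t : K, (tr t : integralClosure ℤ L) * (liftR α t * liftR β (1 - t)) :
      integralClosure ℤ L) : L) = legSum (eta K L) α β := by
  rw [leg_eq]
  have h := map_sum (algebraMap (integralClosure ℤ L) L)
    (fun t : K => (tr t : integralClosure ℤ L) * (liftR α t * liftR β (1 - t))) univ
  refine h.trans (sum_congr rfl fun t _ => ?_)
  rw [map_mul, map_mul, map_intCast]
  rfl

theorem exists_residue (r : ℕ) [hr : Fact r.Prime] : ∃ M : Ideal (integralClosure ℤ L),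
    M.IsMaximal ∧ (r : integralClosure ℤ L) ∈ M := by
  have hrp : r.Prime := Fact.out
  have hnd : NotDvd r (((1 : integralClosure ℤ L)) : L) := by
    intro N hN
    have h1 : ((r : ℤ) : L) * (((1 : integralClosure ℤ L) : L) ^ N / r) = ((1 : ℤ) : L) := by
      have hr0 : (r : L) ≠ 0 := Nat.cast_ne_zero.2 hrp.ne_zero
      push_cast
      rw [one_pow, mul_div_cancel₀ _ hr0]
    have h3 := int_dvd hN (by exact_mod_cast hrp.ne_zero) h1
    have h5 : r ∣ 1 := by exact_mod_cast h3
    exact hrp.one_lt.ne' (Nat.dvd_one.1 h5)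
  obtain ⟨M, hM, hrM, _⟩ := exists_maximal hnd
  exact ⟨M, hM, hrM⟩

omit [DecidableEq K] [CharZero L] in
theorem neg_one_of_odd {χ : MulChar K L} {d : ℕ} (hd : Odd d) (hχ : χ ^ d = 1) :
    χ (-1) = 1 := by
  obtain ⟨k, hk⟩ := hd
  have h1 : χ (-1) ^ d = 1 := by
    rw [← MulChar.pow_apply' χ (by omega), hχ, MulChar.one_apply
      (isUnit_iff_ne_zero.2 (neg_ne_zero.2 one_ne_zero))]
  rw [hk, pow_add, pow_mul, pow_two, ← map_mul, neg_mul_neg, one_mul, map_one, one_pow, one_mul,
    pow_one] at h1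
  exact h1

theorem sum_eta_mul {χ : MulChar K L} {d : ℕ} (h2 : ringChar K ≠ 2) (hd : Odd d)
    (hχ : χ ^ d = 1) : ∑ x : K, rh (integralClosure ℤ L) x * liftR χ x = 0 := by
  have hρ : eta K L * χ ≠ 1 := by
    intro h
    have h1 : χ = (eta K L)⁻¹ := (inv_eq_of_mul_eq_one_right h).symm
    rw [eta_quadratic.inv] at h1
    obtain ⟨k, hk⟩ := hd
    rw [h1, hk, pow_add, pow_mul, eta_quadratic.sq_eq_one, one_pow, one_mul, pow_one] at hχ
    exact eta_ne_one h2 hχ
  have h3 := MulChar.sum_eq_zero_of_ne_one hρ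
  apply Subtype.ext
  have h := map_sum (algebraMap (integralClosure ℤ L) L)
    (fun x : K => rh (integralClosure ℤ L) x * liftR χ x) univ
  refine h.trans (Eq.trans (sum_congr rfl fun x _ => ?_) h3)
  rw [map_mul, MulChar.mul_apply]
  change ((rh (integralClosure ℤ L) x : integralClosure ℤ L) : L) *
    ((liftR χ x : integralClosure ℤ L) : L) = _
  rw [liftR_coe, rh_coe]

/-- If the value at `16` of the quotient of the two characters is a primitive root of unity of
order `d`, a power of an odd prime killing the characters, then the product of the sums for the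
characters and their inverses is not `4 Q ^ 2`. -/
theorem leg_dual {α β : MulChar K L} {r e : ℕ} [hr : Fact r.Prime] (hr2 : r ≠ 2) (he : 0 < e)
    (h2 : ringChar K ≠ 2) (hneg : quadraticChar K (-1) = 1) (hα : α ^ r ^ e = 1)
    (hβ : β ^ r ^ e = 1) (hα1 : α ≠ 1) (hβ1 : β ≠ 1) (hK : r ^ e ∣ Fintype.card K - 1)
    (hξ : IsPrimitiveRoot (α 16 * β⁻¹ 16) (r ^ e)) :
    legSum (eta K L) α β * legSum (eta K L) α⁻¹ β⁻¹ ≠ 4 * (Fintype.card K : L) ^ 2 := by
  classical
  intro hS
  have hrp : r.Prime := hr.out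
  have hrodd : Odd r := hrp.odd_of_ne_two hr2
  have hd : Odd (r ^ e) := hrodd.pow
  have hr3 : 3 ≤ r := by
    have := hrp.two_le
    omega
  have hd2 : 2 < r ^ e := lt_of_lt_of_le (by omega) (Nat.le_self_pow he.ne' r)
  have hα' : α⁻¹ ^ r ^ e = 1 := by rw [inv_pow, hα, inv_one]
  have hβ' : β⁻¹ ^ r ^ e = 1 := by rw [inv_pow, hβ, inv_one]
  have h40 : (2 : K) ≠ 0 := Ring.two_ne_zero h2
  have h4 : (4 : K) ≠ 0 := by
    have : (4 : K) = 2 * 2 := by norm_num
    rw [this]
    exact mul_ne_zero h40 h40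
  set R := integralClosure ℤ L with hR
  -- the root of unity
  set ξ : R := liftR α 16 * liftR β⁻¹ 16 with hξdef
  have hξR : IsPrimitiveRoot ξ (r ^ e) := by
    apply IsPrimitiveRoot.of_map_of_injective (f := algebraMap R L) _
      (FaithfulSMul.algebraMap_injective R L)
    exact hξ
  set π : R := ξ - 1 with hπ
  have hπ0 : π ≠ 0 := sub_ne_zero.2 (hξR.ne_one (by omega))
  have hdvd : ∀ χ : MulChar K L, χ ^ r ^ e = 1 → ∀ t : K, t ≠ 0 → π ∣ liftR χ t - 1 := by
    intro χ hχ t ht
    have e1 : liftR χ t ^ r ^ e = 1 := by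
      apply Subtype.ext
      change (χ t) ^ r ^ e = 1
      rw [← MulChar.pow_apply' χ (by omega), hχ, MulChar.one_apply (isUnit_iff_ne_zero.2 ht)]
    have : NeZero (r ^ e) := ⟨by omega⟩
    obtain ⟨i, _, hi⟩ := hξR.eq_pow_of_pow_eq_one e1
    rw [← hi, hπ]
    have e2 := sub_dvd_pow_sub_pow ξ 1 i
    rwa [one_pow] at e2
  have hn : ∀ χ : MulChar K L, χ ^ r ^ e = 1 → liftR χ (-1) = 1 := by
    intro χ hχ
    apply Subtype.ext
    change χ (-1) = 1
    exact neg_one_of_odd hd hχ
  have hprod : ∀ χ χ' : MulChar K L, χ ^ r ^ e = 1 → χ' ^ r ^ e = 1 →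
      ∑ x : K, rh R x * (liftR χ x * liftR χ' x) = 0 := by
    intro χ χ' hχ hχ'
    rw [← sum_eta_mul (χ := χ * χ') h2 hd (by rw [mul_pow, hχ, hχ', one_mul])]
    refine sum_congr rfl fun x _ => ?_
    congr 1
  obtain ⟨z, hz⟩ := rest_dvd hπ0 h2 hneg (hdvd α hα) (hdvd β hβ) (hn α hα) (hn β hβ)
    (sum_eta_mul h2 hd hα) (sum_eta_mul h2 hd hβ) (hprod α β hα hβ)
  obtain ⟨z', hz'⟩ := rest_dvd hπ0 h2 hneg (hdvd α⁻¹ hα') (hdvd β⁻¹ hβ') (hn α⁻¹ hα')
    (hn β⁻¹ hβ') (sum_eta_mul h2 hd hα') (sum_eta_mul h2 hd hβ') (hprod α⁻¹ β⁻¹ hα' hβ')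
  -- the product of the two sums
  have hSR : (∑ t : K, (tr t : R) * (liftR α t * liftR β (1 - t))) *
      (∑ t : K, (tr t : R) * (liftR α⁻¹ t * liftR β⁻¹ (1 - t))) =
      4 * (Fintype.card K : R) ^ 2 := by
    apply Subtype.ext
    rw [MulMemClass.coe_mul, leg_coe, leg_coe, hS]
    push_cast
    rfl
  -- the absolute values of the Jacobi sums
  have hQ : ∀ χ : MulChar K L, χ ^ r ^ e = 1 → χ ≠ 1 →
      jr (liftR χ) * jr (liftR χ⁻¹) = (Fintype.card K : R) := by
    intro χ hχ hχ1
    apply Subtype.ext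
    rw [MulMemClass.coe_mul, jr_coe, jr_coe]
    have e1 : χ * eta K L ≠ 1 := by
      intro h
      have h1 : χ = (eta K L)⁻¹ := eq_inv_of_mul_eq_one_left h
      rw [eta_quadratic.inv] at h1
      obtain ⟨k, hk⟩ := hd
      rw [h1, hk, pow_add, pow_mul, eta_quadratic.sq_eq_one, one_pow, one_mul, pow_one] at hχ
      exact eta_ne_one h2 hχ
    have e2 : ringChar L ≠ ringChar K := by
      rw [ringChar.eq_zero]
      intro h
      have : CharP K 0 := by
        rw [h]
        exact ringChar.charP K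
      have : CharZero K := CharP.charP_to_charZero K
      exact not_injective_infinite_finite (Nat.cast : ℕ → K) Nat.cast_injective
    have e3 := jacobiSum_mul_jacobiSum_inv e2 hχ1 (eta_ne_one h2) e1
    rw [eta_quadratic.inv] at e3
    rw [e3]
    push_cast
    rfl
  -- the Jacobi sums modulo the second power
  have hA : ∀ χ : MulChar K L, χ ^ r ^ e = 1 → χ ≠ 1 →
      ∃ w : R, jr (liftR χ) = - liftR χ 4 + π ^ 2 * w := by
    intro χ hχ hχ1
    have e1 : liftR χ ^ r ^ e = 1 := by
      apply MulChar.ext'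
      intro x
      apply Subtype.ext
      rw [MulChar.pow_apply' _ (by omega)]
      change (χ x) ^ r ^ e = ((1 : MulChar K R) x : L)
      rw [← MulChar.pow_apply' χ (by omega), hχ]
      by_cases hx : IsUnit x
      · rw [MulChar.one_apply hx, MulChar.one_apply hx]
        rfl
      · rw [MulChar.map_nonunit _ hx, MulChar.map_nonunit _ hx]
        rfl
    obtain ⟨w, _, hw⟩ := exists_jacobiSum_eq_neg_one_add hd2 e1 e1 hK hξR
    have e2 : ∑ x : K, liftR χ x = 0 := by
      apply MulChar.sum_eq_zero_of_ne_one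
      intro h
      apply hχ1
      apply MulChar.ext'
      intro x
      have e3 : ((liftR χ x : R) : L) = (((1 : MulChar K R) x : R) : L) := by rw [h]
      rw [liftR_coe] at e3
      rw [e3]
      by_cases hx : IsUnit x
      · rw [MulChar.one_apply hx, MulChar.one_apply hx]
        rfl
      · rw [MulChar.map_nonunit _ hx, MulChar.map_nonunit _ hx]
        rfl
    refine ⟨liftR χ 4 * w, ?_⟩
    rw [jr_eq e2 h2, hw, hπ]
    ring
  obtain ⟨a, ha⟩ := hA α hα hα1
  obtain ⟨b, hb⟩ := hA β hβ hβ1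
  obtain ⟨a', ha'⟩ := hA α⁻¹ hα' (inv_ne_one.2 hα1)
  obtain ⟨b', hb'⟩ := hA β⁻¹ hβ' (inv_ne_one.2 hβ1)
  have hAA := hQ α hα hα1
  have hBB := hQ β hβ hβ1
  set A := jr (liftR α)
  set B := jr (liftR β)
  set A' := jr (liftR α⁻¹)
  set B' := jr (liftR β⁻¹)
  set S := ∑ t : K, (tr t : R) * (liftR α t * liftR β (1 - t))
  set S' := ∑ t : K, (tr t : R) * (liftR α⁻¹ t * liftR β⁻¹ (1 - t))
  set Q : R := (Fintype.card K : R)
  have hinv : ∀ χ : MulChar K L, liftR χ 4 * liftR χ⁻¹ 4 = 1 := by
    intro χ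
    apply Subtype.ext
    change χ 4 * χ⁻¹ 4 = 1
    rw [← MulChar.mul_apply, mul_inv_cancel, MulChar.one_apply (isUnit_iff_ne_zero.2 h4)]
  have i1 := hinv α
  have i2 := hinv β
  set u : R := liftR α 4 * liftR β⁻¹ 4 with hu
  set u' : R := liftR α⁻¹ 4 * liftR β 4 with hu'
  have huu : u * u' = 1 := by
    rw [hu, hu']
    linear_combination (liftR β 4 * liftR β⁻¹ 4) * i1 + i2
  have hsq : u * u = ξ := by
    have e1 : (16 : K) = 4 * 4 := by norm_num
    rw [hξdef, e1, map_mul, map_mul, hu]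
    ring
  have hdiff : ∃ v : R, A * B' - A' * B = π * (u' + π * v) := by
    refine ⟨-liftR α 4 * b' - liftR β⁻¹ 4 * a + π ^ 2 * a * b' + liftR α⁻¹ 4 * b +
      liftR β 4 * a' - π ^ 2 * a' * b, ?_⟩
    have e1 : π * u' = u - u' := by
      rw [hπ]
      linear_combination (-u') * hsq + u * huu
    rw [ha, hb, ha', hb']
    linear_combination -e1 - hu + hu'
  obtain ⟨v, hv⟩ := hdiff
  have hkey : π ^ 2 * ((u' + π * v) ^ 2 + π * ((A ^ 2 + B ^ 2) * z' + z * (A' ^ 2 + B' ^ 2) +
      π ^ 3 * z * z')) = 0 := by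
    have e1 : (A * B' - A' * B) ^ 2 = π ^ 2 * (u' + π * v) ^ 2 := by rw [hv]; ring
    have e2 : S = A ^ 2 + B ^ 2 + π ^ 3 * z := by linear_combination hz
    have e3 : S' = A' ^ 2 + B' ^ 2 + π ^ 3 * z' := by linear_combination hz'
    rw [e2, e3] at hSR
    linear_combination hSR - e1 - (A * A' + B * B' + 2 * Q) * (hAA + hBB)
  have hkey2 : (u' + π * v) ^ 2 + π * ((A ^ 2 + B ^ 2) * z' + z * (A' ^ 2 + B' ^ 2) +
      π ^ 3 * z * z') = 0 := by
    rcases mul_eq_zero.1 hkey with h | h
    · exact absurd ((pow_eq_zero_iff two_ne_zero).1 h) hπ0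
    · exact h
  -- a residue field
  obtain ⟨M, hM, hrM⟩ := exists_residue (L := L) r
  let : Field (R ⧸ M) := Ideal.Quotient.field M
  have hch : CharP (R ⧸ M) r := by
    rw [CharP.charP_iff_prime_eq_zero hrp]
    have := Ideal.Quotient.eq_zero_iff_mem.2 hrM
    rwa [map_natCast] at this
  have hφξ : Ideal.Quotient.mk M ξ = 1 := by
    apply eq_one_of_pow (r := r) (e := e)
    rw [← map_pow, hξR.pow_eq_one, map_one]
  have hφπ : Ideal.Quotient.mk M π = 0 := by
    rw [hπ, map_sub, hφξ, map_one, sub_self]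
  have h5 := congrArg (Ideal.Quotient.mk M) hkey2
  rw [map_add, map_pow, map_add, map_mul (Ideal.Quotient.mk M) π v,
    map_mul (Ideal.Quotient.mk M) π ((A ^ 2 + B ^ 2) * z' + z * (A' ^ 2 + B' ^ 2) +
      π ^ 3 * z * z'), hφπ, zero_mul, zero_mul, add_zero, add_zero, map_zero,
    pow_eq_zero_iff two_ne_zero] at h5
  have h6 := congrArg (Ideal.Quotient.mk M) huu
  rw [map_mul (Ideal.Quotient.mk M) u u', h5, mul_zero, map_one] at h6
  exact zero_ne_one h6

end lift

end Pool.Agent.Helper73.LF
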