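import Mathlib

/-!
# A square root of `-1` and roots of unity of odd order
-/

namespace Pool.Agent.Helper73.LF

variable {L : Type*} [Field L] [CharZero L] [IsAlgClosed L]

/-- the field generated by the roots of unity of an odd order contains no square root of `-1` -/
theorem exists_subfield {D : ℕ} (hD : Odd D) :
    ∃ F : Subfield L, (∀ x : L, x ^ (2 * D) = 1 → x ∈ F) ∧ ∀ j ∈ F, j ^ 2 ≠ -1 := by
  have hD0 : D ≠ 0 := by rintro rfl; exact absurd hD (by decide)
  have : NeZero D := ⟨hD0⟩
  have : IsCyclotomicExtension {D} ℚ (CyclotomicField D ℚ) :=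
    CyclotomicField.isCyclotomicExtension D ℚ

  let : Algebra ℚ L := DivisionRing.toRatAlgebra
  let φ : CyclotomicField D ℚ →ₐ[ℚ] L := IsAlgClosed.lift
  refine ⟨φ.toRingHom.fieldRange, ?_, ?_⟩
  · intro x hx
    have hζ := IsCyclotomicExtension.zeta_spec D ℚ (CyclotomicField D ℚ)
    have hζ' : IsPrimitiveRoot (φ (IsCyclotomicExtension.zeta D ℚ (CyclotomicField D ℚ))) D :=
      hζ.map_of_injective φ.injective
    have h1 : (x ^ 2) ^ D = 1 := by rw [← pow_mul, hx]
    obtain ⟨i, _, hi⟩ := hζ'.eq_pow_of_pow_eq_one h1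
    have h2 : x ^ 2 ∈ φ.toRingHom.fieldRange := by
      rw [← hi]
      exact Subfield.pow_mem _ (RingHom.mem_fieldRange.2 ⟨_, rfl⟩) i
    have h3 : x ^ D = 1 ∨ x ^ D = -1 := by
      rw [← sq_eq_one_iff, ← pow_mul, mul_comm D 2, hx]
    have h4 : x ^ D ∈ φ.toRingHom.fieldRange := by
      rcases h3 with h | h
      · rw [h]; exact Subfield.one_mem _
      · rw [h]; exact Subfield.neg_mem _ (Subfield.one_mem _)
    obtain ⟨k, hk⟩ := hD
    have h5 : (x ^ D) * (x ^ D) = 1 := by rw [← pow_add, ← two_mul, hx]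
    have h6 : x = (x ^ 2) ^ (k + 1) * x ^ D := by
      have h7 : (x ^ 2) ^ (k + 1) = x * x ^ D := by
        rw [← pow_mul, ← pow_succ', hk]
        congr 1
      rw [h7, mul_assoc, h5, mul_one]
    rw [h6]
    exact Subfield.mul_mem _ (Subfield.pow_mem _ h2 _) h4
  · rintro j ⟨j', rfl⟩ hj
    have hj' : j' ^ 2 = -1 := by
      apply φ.injective
      rw [map_pow, map_neg, map_one]
      exact hj
    have h4 : IsPrimitiveRoot j' 4 := by
      have h5 : orderOf j' = 2 ^ (1 + 1) := by
        apply orderOf_eq_prime_pow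
        · rw [pow_one, hj']
          norm_num
        · norm_num
          linear_combination (j' ^ 2 - 1) * hj'
      have h6 := IsPrimitiveRoot.orderOf j'
      rw [h5] at h6
      exact h6
    have h6 := IsPrimitiveRoot.dvd_of_isCyclotomicExtension D h4 (by norm_num)
    obtain ⟨k, hk⟩ := hD
    omega

end Pool.Agent.Helper73.LF
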