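import Pool.Agent.Helper73.LF.Leg

/-!
# The square of half of the sum over the Legendre family
-/

open Finset

namespace Pool.Agent.Helper73.LF

section

variable {K L : Type*} [Field K] [Fintype K] [Field L] [CharZero L]

variable {ρ α β γ : MulChar K L}

omit [Fintype K] [CharZero L] in
theorem inv_apply_neg_one (χ : MulChar K L) : χ⁻¹ (-1) = χ (-1) := by
  rw [MulChar.inv_apply', inv_neg_one]

omit [Fintype K] [CharZero L] in
theorem neg_one_sq (χ : MulChar K L) : χ (-1) * χ (-1) = 1 := by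
  rw [← map_mul, neg_one_mul, neg_neg, map_one]

/-- the functional equation for the sums over the Legendre family -/
theorem leg_functional (hρ : ρ ^ 2 = 1) (h : α * β * γ = ρ) (hα : α ≠ 1) (hβ : β ≠ 1)
    (hγ : γ ≠ 1) {ψ : AddChar K L} (hψ : ψ.IsPrimitive) :
    gs α β γ ψ ^ 2 * legSum ρ α β = (Fintype.card K : L) ^ 3 * legSum ρ α⁻¹ β⁻¹ := by
  have h1 := functional hα hβ hγ hψ
  have h' : α⁻¹ * β⁻¹ * γ⁻¹ = ρ := by
    have h2 : ρ⁻¹ = ρ := by
      rw [inv_eq_iff_mul_eq_one, ← pow_two, hρ]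
    rw [← h2, ← h, mul_inv, mul_inv]
  rw [tri_eq hρ h, tri_eq hρ h', inv_apply_neg_one] at h1
  have h3 : ((Fintype.card K : L) - 1) * (α (-1) * ρ (-1)) ≠ 0 := by
    refine mul_ne_zero ?_ (mul_ne_zero (char_ne (neg_ne_zero.2 one_ne_zero))
      (char_ne (neg_ne_zero.2 one_ne_zero)))
    rw [sub_ne_zero]
    have h4 : 1 < Fintype.card K := Fintype.one_lt_card
    exact_mod_cast h4.ne'
  apply mul_left_cancel₀ h3
  linear_combination h1

omit [CharZero L] in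
theorem gauss_inv {χ : MulChar K L} (hχ : χ ≠ 1) {ψ : AddChar K L} (hψ : ψ.IsPrimitive) :
    gaussSum χ ψ * gaussSum χ⁻¹ ψ = χ (-1) * Fintype.card K := by
  have h1 := gaussSum_mul_gaussSum_eq_card hχ hψ
  have h2 := mul_gaussSum_inv_eq_gaussSum χ⁻¹ ψ
  rw [inv_apply_neg_one] at h2
  linear_combination (χ (-1)) * h1 - (gaussSum χ ψ) * h2

omit [CharZero L] in
/-- the product of the three Gauss sums and the product for the inverse characters -/
theorem gs_mul (h : α * β * γ = ρ) (hα : α ≠ 1) (hβ : β ≠ 1)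
    (hγ : γ ≠ 1) {ψ : AddChar K L} (hψ : ψ.IsPrimitive) :
    gs α β γ ψ * (gaussSum α ψ * gaussSum β ψ * gaussSum γ ψ) =
      ρ (-1) * (Fintype.card K : L) ^ 3 := by
  have h1 := gauss_inv hα hψ
  have h2 := gauss_inv hβ hψ
  have h3 := gauss_inv hγ hψ
  have h4 : α (-1) * β (-1) * γ (-1) = ρ (-1) := by
    rw [← MulChar.mul_apply, ← MulChar.mul_apply, h]
  rw [← h4, gs]
  calc _ = (gaussSum α ψ * gaussSum α⁻¹ ψ) * (gaussSum β ψ * gaussSum β⁻¹ ψ) *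
      (gaussSum γ ψ * gaussSum γ⁻¹ ψ) := by ring
    _ = _ := by rw [h1, h2, h3]; ring

omit [CharZero L] in
/-- the product of the three Gauss sums is the Gauss sum of the quadratic character times a
product of Jacobi sums -/
theorem sq_gauss (hρ1 : ρ ≠ 1) (hρ : ρ.IsQuadratic) (h : α * β * γ = ρ) (hα : α ≠ 1)
    {ψ : AddChar K L} (hψ : ψ.IsPrimitive) {F : Subfield L}
    (hFα : ∀ x, α x ∈ F) (hFβ : ∀ x, β x ∈ F) (hFρ : ∀ x, ρ x ∈ F) :
    ∃ y ∈ F, (gaussSum α ψ * gaussSum β ψ * gaussSum γ ψ) ^ 2 =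
      ρ (-1) * Fintype.card K * y ^ 2 := by
  have hγF : ∀ x, γ x ∈ F := by
    intro x
    have h1 : γ = (α * β)⁻¹ * ρ := by rw [← h]; group
    rw [h1, MulChar.mul_apply, MulChar.inv_apply', MulChar.mul_apply]
    exact F.mul_mem (F.mul_mem (hFα _) (hFβ _)) (hFρ _)
  have hsq := gaussSum_sq hρ1 hρ hψ
  by_cases hαβ : α * β = 1
  · have hγρ : γ = ρ := by rw [← h, hαβ, one_mul]
    have hβ : β = α⁻¹ := (inv_eq_of_mul_eq_one_right hαβ).symm
    refine ⟨Fintype.card K, natCast_mem F _, ?_⟩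
    have h1 := gauss_inv hα hψ
    rw [hβ, hγρ, h1, mul_pow, hsq, mul_pow]
    have h2 := neg_one_sq α
    linear_combination (ρ (-1) * (Fintype.card K : L) ^ 3) * h2
  · refine ⟨jacobiSum α β * jacobiSum (α * β) γ, F.mul_mem ?_ ?_, ?_⟩
    · exact F.sum_mem fun x _ => F.mul_mem (hFα _) (hFβ _)
    · refine F.sum_mem fun x _ => F.mul_mem ?_ (hγF _)
      rw [MulChar.mul_apply]
      exact F.mul_mem (hFα _) (hFβ _)
    · have h1 := jacobiSum_mul_nontrivial hαβ ψ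
      have h2 := jacobiSum_mul_nontrivial (χ := α * β) (φ := γ) (by rw [h]; exact hρ1) ψ
      rw [h] at h2
      rw [← h1]
      have h3 : gaussSum (α * β) ψ * jacobiSum α β * gaussSum γ ψ =
          gaussSum ρ ψ * (jacobiSum α β * jacobiSum (α * β) γ) := by
        linear_combination (-jacobiSum α β) * h2
      rw [h3, mul_pow, hsq]

/-- If the two sums are `2 λ` and `2 Q ^ 2 / λ`, then `λ ^ 2` is the product of `ρ (-1)` and of a
square in the field generated by the values of the characters. -/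
theorem lam_sq (hρ1 : ρ ≠ 1) (hρ : ρ.IsQuadratic) (hα : α ≠ 1) (hβ : β ≠ 1)
    (hαβ : α * β ≠ ρ) {ψ : AddChar K L} (hψ : ψ.IsPrimitive) {F : Subfield L}
    (hFα : ∀ x, α x ∈ F) (hFβ : ∀ x, β x ∈ F) (hFρ : ∀ x, ρ x ∈ F) {c : L} (hc : c ≠ 0)
    (h1 : legSum ρ α β = 2 * c)
    (h2 : legSum ρ α⁻¹ β⁻¹ = 2 * ((Fintype.card K : L) ^ 2 / c)) :
    c ∈ F ∧ ∃ y ∈ F, c ^ 2 = ρ (-1) * y ^ 2 := by
  have hρ2 : ρ ^ 2 = 1 := hρ.sq_eq_one
  have hγ : (α * β)⁻¹ * ρ ≠ 1 := by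
    intro h
    apply hαβ
    rw [inv_mul_eq_one] at h
    exact h
  have h : α * β * ((α * β)⁻¹ * ρ) = ρ := by group
  have hfe := leg_functional hρ2 h hα hβ hγ hψ
  have hgs := gs_mul h hα hβ hγ hψ
  obtain ⟨y, hy, hsq⟩ := sq_gauss hρ1 hρ h hα hψ hFα hFβ hFρ
  have hQ : (Fintype.card K : L) ≠ 0 := Nat.cast_ne_zero.2 Fintype.card_ne_zero
  have hcF : c ∈ F := by
    have h3 : c = legSum ρ α β / 2 := by rw [h1]; ring
    rw [h3]
    refine F.div_mem ?_ ?_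
    · exact F.sum_mem fun t _ => F.sum_mem fun x _ => F.mul_mem (hFρ _)
        (F.mul_mem (hFα _) (hFβ _))
    · exact_mod_cast natCast_mem F 2
  refine ⟨hcF, y, hy, ?_⟩
  rw [h1, h2] at hfe
  set G := gs α β ((α * β)⁻¹ * ρ) ψ
  set P := gaussSum α ψ * gaussSum β ψ * gaussSum ((α * β)⁻¹ * ρ) ψ
  set Q : L := (Fintype.card K : L)
  have hρρ := neg_one_sq ρ
  have h4 : G ^ 2 * c ^ 2 = Q ^ 5 := by
    have h5 : G ^ 2 * (2 * c) * c = Q ^ 3 * (2 * (Q ^ 2 / c)) * c := by rw [hfe]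
    have h6 : Q ^ 3 * (2 * (Q ^ 2 / c)) * c = 2 * Q ^ 5 := by
      field_simp
    have h7 : (2 : L) * (G ^ 2 * c ^ 2) = 2 * Q ^ 5 := by
      rw [← h6, ← h5]; ring
    exact mul_left_cancel₀ two_ne_zero h7
  have h8 : G ^ 2 * P ^ 2 = Q ^ 6 := by
    rw [← mul_pow, hgs, mul_pow]
    linear_combination (Q ^ 6) * hρρ
  have h9 : Q ^ 6 * c ^ 2 = Q ^ 6 * (ρ (-1) * y ^ 2) := by
    calc Q ^ 6 * c ^ 2 = (G ^ 2 * c ^ 2) * P ^ 2 := by rw [← h8]; ring
      _ = Q ^ 6 * (ρ (-1) * y ^ 2) := by rw [h4, hsq]; ring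
  exact mul_left_cancel₀ (pow_ne_zero _ hQ) h9

end

end Pool.Agent.Helper73.LF
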