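import Pool.Agent.Helper73.LF.Eight

/-!
# The sum of the traces of the Legendre curves against two logarithms
-/

open Finset

namespace Pool.Agent.Helper73.LF

section

variable {K κ : Type*} [Field K] [Fintype K] [DecidableEq K] [CommRing κ]

/-- the quadratic character with values in `κ` -/
def rh (κ : Type*) {K : Type*} [Field K] [Fintype K] [DecidableEq K] [CommRing κ] (x : K) : κ :=
  (quadraticChar K x : κ)

/-- a logarithm -/
structure IsLog (f : K → κ) : Prop where
  zero : f 0 = 0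
  mul : ∀ x y : K, x ≠ 0 → y ≠ 0 → f (x * y) = f x + f y
  neg_one : f (-1) = 0
  sum : ∑ x : K, rh κ x * f x = 0

variable {f g : K → κ}

theorem IsLog.one (hf : IsLog f) : f 1 = 0 := by
  have h := hf.mul 1 1 one_ne_zero one_ne_zero
  rw [one_mul] at h
  exact left_eq_add.1 h

theorem IsLog.neg (hf : IsLog f) (x : K) : f (-x) = f x := by
  by_cases hx : x = 0
  · rw [hx, neg_zero]
  · rw [← neg_one_mul, hf.mul _ _ (neg_ne_zero.2 one_ne_zero) hx, hf.neg_one, zero_add]

theorem IsLog.div (hf : IsLog f) {x y : K} (hx : x ≠ 0) (hy : y ≠ 0) :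
    f (x / y) = f x - f y := by
  have h := hf.mul (x / y) y (div_ne_zero hx hy) hy
  rw [div_mul_cancel₀ x hy] at h
  rw [h, add_sub_cancel_right]

theorem rh_mul (x y : K) : rh κ (x * y) = rh κ x * rh κ y := by
  rw [rh, map_mul, Int.cast_mul]; rfl

theorem rh_zero : rh κ (0 : K) = 0 := by
  rw [rh, MulChar.map_nonunit _ not_isUnit_zero, Int.cast_zero]

theorem rh_one : rh κ (1 : K) = 1 := by
  rw [rh, map_one, Int.cast_one]

theorem rh_sq {x : K} (hx : x ≠ 0) : rh κ x * rh κ x = 1 := by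
  rw [rh, ← Int.cast_mul, eta_sq hx, Int.cast_one]

theorem rh_neg (hneg : quadraticChar K (-1) = 1) (x : K) : rh κ (-x) = rh κ x := by
  rw [rh, ← neg_one_mul, map_mul, hneg, one_mul]; rfl

theorem sum_rh (h2 : ringChar K ≠ 2) : ∑ x : K, rh κ x = 0 := by
  have h := quadraticChar_sum_zero h2
  have h1 : ((∑ x : K, quadraticChar K x : ℤ) : κ) = 0 := by rw [h, Int.cast_zero]
  rw [← h1, Int.cast_sum]
  rfl

/-- one away from `0` and `1` -/
def ee (κ : Type*) {K : Type*} [Field K] [DecidableEq K] [CommRing κ] (x : K) : κ :=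
  if x = 0 ∨ x = 1 then 0 else 1

theorem sum_ee (F : K → κ) : ∑ y : K, ee κ y * F y = ∑ y : K, F y - F 0 - F 1 := by
  have h : ∀ y : K, ee κ y * F y = F y - (if y = 0 then F 0 else 0) -
      (if y = 1 then F 1 else 0) := by
    intro y
    rw [ee]
    by_cases hy : y = 0
    · subst hy
      rw [if_pos (Or.inl rfl), if_pos rfl, if_neg zero_ne_one, zero_mul, sub_self, sub_zero]
    · by_cases hy1 : y = 1
      · subst hy1
        rw [if_pos (Or.inr rfl), if_neg hy, if_pos rfl, zero_mul, sub_zero, sub_self]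
      · rw [if_neg (by tauto), if_neg hy, if_neg hy1, one_mul, sub_zero, sub_zero]
  rw [sum_congr rfl fun y _ => h y, sum_sub_distrib, sum_sub_distrib,
    sum_ite_eq' univ (0 : K) (fun _ => F 0), sum_ite_eq' univ (1 : K) (fun _ => F 1),
    if_pos (mem_univ _), if_pos (mem_univ _)]

theorem sum_shift (F : K → κ) (x : K) : ∑ y : K, F (y - x) = ∑ y : K, F y := by
  rw [← Equiv.sum_comp (Equiv.subRight x) F]
  rfl

theorem sum_shift' (F : K → κ) (x : K) : ∑ y : K, F (x - y) = ∑ y : K, F y := by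
  rw [← Equiv.sum_comp (Equiv.subLeft x) F]
  rfl

/-- the sum over `y` different from `0` and `1` of an even function of `y - x` -/
theorem sum_ee_shift {F : K → κ} (hF : ∀ x, F (-x) = F x) (hs : ∑ x : K, F x = 0) (x : K) :
    ∑ y : K, ee κ y * F (y - x) = - F x - F (1 - x) := by
  rw [sum_ee (fun y => F (y - x)), sum_shift, hs, zero_sub, zero_sub, hF]

theorem sum_ee_shift' {F : K → κ} (hF : ∀ x, F (-x) = F x) (hs : ∑ x : K, F x = 0) (y : K) :
    ∑ x : K, ee κ x * F (y - x) = - F y - F (1 - y) := by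
  rw [sum_ee (fun x => F (y - x)), sum_shift', hs, zero_sub, sub_zero]
  have h : F (y - 1) = F (1 - y) := by rw [← hF, neg_sub]
  rw [h]

theorem ee_mul_log (hf : IsLog f) (x : K) : ee κ x * f x = f x := by
  rw [ee]
  split_ifs with h
  · rcases h with h | h
    · rw [h, hf.zero, mul_zero]
    · rw [h, hf.one, mul_zero]
  · rw [one_mul]

theorem ee_one_sub (x : K) : ee κ (1 - x) = ee κ x := by
  have h : (1 - x = 0 ∨ 1 - x = 1) ↔ (x = 0 ∨ x = 1) := by
    constructor
    · rintro (h | h)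
      · exact Or.inr (sub_eq_zero.1 h).symm
      · exact Or.inl (by linear_combination -h)
    · rintro (h | h)
      · exact Or.inr (by rw [h, sub_zero])
      · exact Or.inl (by rw [h, sub_self])
  rw [ee, ee]
  simp only [h]

theorem ee_mul_log' (hf : IsLog f) (x : K) : ee κ x * f (1 - x) = f (1 - x) := by
  rw [← ee_one_sub, ee_mul_log hf]

/-- the sums of the quadratic character times one logarithm over a translate -/
theorem sum_log_shift (h2 : ringChar K ≠ 2) (hneg : quadraticChar K (-1) = 1) (hg : IsLog g)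
    {x : K} (hx : x ≠ 0) : ∑ y : K, rh κ (y - x) * g y =
      rh κ x * (- g x + ∑ w : K, rh κ (w - 1) * g w) := by
  have h1 : ∑ w : K, rh κ (w - 1) * (if w = 0 then 0 else 1) = -1 := by
    have e : ∀ w : K, rh κ (w - 1) * (if w = 0 then 0 else 1) =
        rh κ (w - 1) - if w = 0 then 1 else 0 := by
      intro w
      split_ifs with hw
      · rw [hw, zero_sub, rh_neg hneg, rh_one, mul_zero, sub_self]
      · rw [mul_one, sub_zero]
    rw [sum_congr rfl fun w _ => e w, sum_sub_distrib, sum_shift (fun y => rh κ y) 1, sum_rh h2,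
      sum_ite_eq' univ (0 : K), if_pos (mem_univ _), zero_sub]
  have h3 : ∑ y : K, rh κ (y - x) * g y = ∑ w : K, (rh κ x * g x *
      (rh κ (w - 1) * (if w = 0 then 0 else 1)) + rh κ x * (rh κ (w - 1) * g w)) := by
    rw [← Equiv.sum_comp (Equiv.mulLeft₀ x hx)]
    refine sum_congr rfl fun w _ => ?_
    simp only [Equiv.mulLeft₀_apply]
    have e : x * w - x = x * (w - 1) := by ring
    rw [e, rh_mul]
    split_ifs with hw
    · rw [hw, mul_zero, hg.zero]
      ring
    · rw [hg.mul x w hx hw]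
      ring
  rw [h3, sum_add_distrib, ← mul_sum, h1, ← mul_sum]
  ring

/-- the nine sums -/
theorem nine (h2 : ringChar K ≠ 2) (hneg : quadraticChar K (-1) = 1) (hf : IsLog f)
    (hg : IsLog g) (hfg : ∑ x : K, rh κ x * (f x * g x) = 0) :
    ∑ x : K, ∑ y : K, ee κ x * ee κ y * rh κ (y - x) * (f x + f (1 - y) - f (y - x)) *
      (g y + g (1 - x) - g (y - x)) = 0 := by
  set X1 := ∑ x : K, rh κ x * (f x * g (1 - x)) with hX1
  set X2 := ∑ x : K, rh κ (1 - x) * (f x * g (1 - x)) with hX2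
  have hrn : ∀ x : K, rh κ (-x) = rh κ x := rh_neg hneg
  have hr0 : ∑ x : K, rh κ x = 0 := sum_rh h2
  have n11 : ∑ x : K, ∑ y : K, ee κ x * ee κ y * rh κ (y - x) * (f x * g (1 - x)) =
      - X1 - X2 := by
    have e : ∀ x : K, ∑ y : K, ee κ x * ee κ y * rh κ (y - x) * (f x * g (1 - x)) =
        - (rh κ x * (f x * g (1 - x))) - rh κ (1 - x) * (f x * g (1 - x)) := by
      intro x
      have e1 : ∀ y : K, ee κ x * ee κ y * rh κ (y - x) * (f x * g (1 - x)) =
          (ee κ x * f x) * g (1 - x) * (ee κ y * rh κ (y - x)) := fun y => by ring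
      rw [sum_congr rfl fun y _ => e1 y, ← mul_sum, sum_ee_shift hrn hr0, ee_mul_log hf]
      ring
    rw [sum_congr rfl fun x _ => e x, sum_sub_distrib, sum_neg_distrib]
  have n12 : ∀ {f g : K → κ}, IsLog f → IsLog g → ∑ x : K, rh κ x * (f x * g x) = 0 →
      ∑ x : K, ∑ y : K, ee κ x * ee κ y * rh κ (y - x) * (f x * g y) = 0 := by
    intro f g hf hg hfg
    have e : ∀ x : K, ∑ y : K, ee κ x * ee κ y * rh κ (y - x) * (f x * g y) =
        - (rh κ x * (f x * g x)) + (∑ w : K, rh κ (w - 1) * g w) * (rh κ x * f x) := by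
      intro x
      have e1 : ∀ y : K, ee κ x * ee κ y * rh κ (y - x) * (f x * g y) =
          (ee κ x * f x) * (rh κ (y - x) * (ee κ y * g y)) := fun y => by ring
      rw [sum_congr rfl fun y _ => e1 y, ← mul_sum, ee_mul_log hf]
      simp only [ee_mul_log hg]
      by_cases hx : x = 0
      · rw [hx, hf.zero]
        ring
      · rw [sum_log_shift h2 hneg hg hx]
        ring
    rw [sum_congr rfl fun x _ => e x, sum_add_distrib, sum_neg_distrib, hfg, ← mul_sum, hf.sum]
    ring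
  have hev : ∀ {f : K → κ}, IsLog f → ∀ x : K, rh κ (-x) * f (-x) = rh κ x * f x :=
    fun hf x => by rw [hrn, hf.neg]
  have n13 : ∑ x : K, ∑ y : K, ee κ x * ee κ y * rh κ (y - x) * (f x * g (y - x)) = - X2 := by
    have e : ∀ x : K, ∑ y : K, ee κ x * ee κ y * rh κ (y - x) * (f x * g (y - x)) =
        - (rh κ x * (f x * g x)) - rh κ (1 - x) * (f x * g (1 - x)) := by
      intro x
      have e1 : ∀ y : K, ee κ x * ee κ y * rh κ (y - x) * (f x * g (y - x)) =
          (ee κ x * f x) * (ee κ y * (rh κ (y - x) * g (y - x))) := fun y => by ring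
      rw [sum_congr rfl fun y _ => e1 y, ← mul_sum, ee_mul_log hf,
        sum_ee_shift (F := fun z => rh κ z * g z) (hev hg) hg.sum]
      ring
    rw [sum_congr rfl fun x _ => e x, sum_sub_distrib, sum_neg_distrib, hfg, neg_zero, zero_sub]
  have hflip : ∀ F : K → K → κ, ∑ x : K, ∑ y : K, F x y =
      ∑ x : K, ∑ y : K, F (1 - x) (1 - y) := by
    intro F
    rw [← Equiv.sum_comp (Equiv.subLeft (1 : K))]
    refine sum_congr rfl fun x _ => ?_
    rw [← Equiv.sum_comp (Equiv.subLeft (1 : K))]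
    rfl
  have n21 : ∑ x : K, ∑ y : K, ee κ x * ee κ y * rh κ (y - x) * (f (1 - y) * g (1 - x)) = 0 := by
    rw [hflip, ← n12 hg hf (by rw [← hfg]; exact sum_congr rfl fun x _ => by ring)]
    refine sum_congr rfl fun x _ => sum_congr rfl fun y _ => ?_
    rw [ee_one_sub, ee_one_sub, sub_sub_cancel, sub_sub_cancel]
    have e : (1 - y - (1 - x) : K) = -(y - x) := by ring
    rw [e, hrn]
    ring
  have n22 : ∑ x : K, ∑ y : K, ee κ x * ee κ y * rh κ (y - x) * (f (1 - y) * g y) =
      - X1 - X2 := by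
    rw [sum_comm]
    have e : ∀ y : K, ∑ x : K, ee κ x * ee κ y * rh κ (y - x) * (f (1 - y) * g y) =
        - (rh κ y * (f (1 - y) * g y)) - rh κ (1 - y) * (f (1 - y) * g y) := by
      intro y
      have e1 : ∀ x : K, ee κ x * ee κ y * rh κ (y - x) * (f (1 - y) * g y) =
          (ee κ y * g y) * f (1 - y) * (ee κ x * rh κ (y - x)) := fun x => by ring
      rw [sum_congr rfl fun x _ => e1 x, ← mul_sum, sum_ee_shift' hrn hr0, ee_mul_log hg]
      ring
    rw [sum_congr rfl fun y _ => e y, sum_sub_distrib, sum_neg_distrib]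
    have e2 : ∑ y : K, rh κ y * (f (1 - y) * g y) = X2 := by
      rw [hX2, ← Equiv.sum_comp (Equiv.subLeft (1 : K))]
      refine sum_congr rfl fun x _ => ?_
      rw [Equiv.subLeft_apply, sub_sub_cancel]
    have e3 : ∑ y : K, rh κ (1 - y) * (f (1 - y) * g y) = X1 := by
      rw [hX1, ← Equiv.sum_comp (Equiv.subLeft (1 : K))]
      refine sum_congr rfl fun x _ => ?_
      rw [Equiv.subLeft_apply, sub_sub_cancel]
    rw [e2, e3]
    ring
  have n23 : ∑ x : K, ∑ y : K, ee κ x * ee κ y * rh κ (y - x) * (f (1 - y) * g (y - x)) =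
      - X2 := by
    rw [sum_comm]
    have e : ∀ y : K, ∑ x : K, ee κ x * ee κ y * rh κ (y - x) * (f (1 - y) * g (y - x)) =
        - (rh κ y * (f (1 - y) * g y)) - rh κ (1 - y) * (f (1 - y) * g (1 - y)) := by
      intro y
      have e1 : ∀ x : K, ee κ x * ee κ y * rh κ (y - x) * (f (1 - y) * g (y - x)) =
          (ee κ y * f (1 - y)) * (ee κ x * (rh κ (y - x) * g (y - x))) := fun x => by ring
      rw [sum_congr rfl fun x _ => e1 x, ← mul_sum, ee_mul_log' hf,
        sum_ee_shift' (F := fun z => rh κ z * g z) (hev hg) hg.sum]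
      ring
    rw [sum_congr rfl fun y _ => e y, sum_sub_distrib, sum_neg_distrib]
    have e2 : ∑ y : K, rh κ y * (f (1 - y) * g y) = X2 := by
      rw [hX2, ← Equiv.sum_comp (Equiv.subLeft (1 : K))]
      refine sum_congr rfl fun x _ => ?_
      rw [Equiv.subLeft_apply, sub_sub_cancel]
    have e3 : ∑ y : K, rh κ (1 - y) * (f (1 - y) * g (1 - y)) = 0 := by
      rw [sum_shift' (fun z => rh κ z * (f z * g z)) 1, hfg]
    rw [e2, e3]
    ring
  have n31 : ∑ x : K, ∑ y : K, ee κ x * ee κ y * rh κ (y - x) * (f (y - x) * g (1 - x)) =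
      - X1 := by
    have e : ∀ x : K, ∑ y : K, ee κ x * ee κ y * rh κ (y - x) * (f (y - x) * g (1 - x)) =
        - (rh κ x * (f x * g (1 - x))) - rh κ (1 - x) * (f (1 - x) * g (1 - x)) := by
      intro x
      have e1 : ∀ y : K, ee κ x * ee κ y * rh κ (y - x) * (f (y - x) * g (1 - x)) =
          (ee κ x * g (1 - x)) * (ee κ y * (rh κ (y - x) * f (y - x))) := fun y => by ring
      rw [sum_congr rfl fun y _ => e1 y, ← mul_sum, ee_mul_log' hg,
        sum_ee_shift (F := fun z => rh κ z * f z) (hev hf) hf.sum]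
      ring
    rw [sum_congr rfl fun x _ => e x, sum_sub_distrib, sum_neg_distrib,
      sum_shift' (fun z => rh κ z * (f z * g z)) 1, hfg, sub_zero]
  have n32 : ∑ x : K, ∑ y : K, ee κ x * ee κ y * rh κ (y - x) * (f (y - x) * g y) = - X1 := by
    rw [sum_comm]
    have e : ∀ y : K, ∑ x : K, ee κ x * ee κ y * rh κ (y - x) * (f (y - x) * g y) =
        - (rh κ y * (f y * g y)) - rh κ (1 - y) * (f (1 - y) * g y) := by
      intro y
      have e1 : ∀ x : K, ee κ x * ee κ y * rh κ (y - x) * (f (y - x) * g y) =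
          (ee κ y * g y) * (ee κ x * (rh κ (y - x) * f (y - x))) := fun x => by ring
      rw [sum_congr rfl fun x _ => e1 x, ← mul_sum, ee_mul_log hg,
        sum_ee_shift' (F := fun z => rh κ z * f z) (hev hf) hf.sum]
      ring
    rw [sum_congr rfl fun y _ => e y, sum_sub_distrib, sum_neg_distrib, hfg, neg_zero, zero_sub]
    congr 1
    rw [hX1, ← Equiv.sum_comp (Equiv.subLeft (1 : K))]
    refine sum_congr rfl fun x _ => ?_
    rw [Equiv.subLeft_apply, sub_sub_cancel]
  have n33 : ∑ x : K, ∑ y : K, ee κ x * ee κ y * rh κ (y - x) * (f (y - x) * g (y - x)) = 0 := by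
    have e : ∀ x : K, ∑ y : K, ee κ x * ee κ y * rh κ (y - x) * (f (y - x) * g (y - x)) =
        - (rh κ x * (f x * g x)) - rh κ (1 - x) * (f (1 - x) * g (1 - x)) := by
      intro x
      have e1 : ∀ y : K, ee κ x * ee κ y * rh κ (y - x) * (f (y - x) * g (y - x)) =
          ee κ x * (ee κ y * (rh κ (y - x) * (f (y - x) * g (y - x)))) := fun y => by ring
      rw [sum_congr rfl fun y _ => e1 y, ← mul_sum,
        sum_ee_shift (F := fun z => rh κ z * (f z * g z))
          (fun z => by rw [hrn, hf.neg, hg.neg]) hfg]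
      have e2 := ee_mul_log hf x
      have e3 := ee_mul_log' hf x
      linear_combination (-(rh κ x * g x)) * e2 - (rh κ (1 - x) * g (1 - x)) * e3
    rw [sum_congr rfl fun x _ => e x, sum_sub_distrib, sum_neg_distrib,
      sum_shift' (fun z => rh κ z * (f z * g z)) 1, hfg, neg_zero, sub_zero]
  have hall : ∑ x : K, ∑ y : K, ee κ x * ee κ y * rh κ (y - x) * (f x + f (1 - y) - f (y - x)) *
      (g y + g (1 - x) - g (y - x)) =
      ∑ x : K, ∑ y : K, ee κ x * ee κ y * rh κ (y - x) * (f x * g (1 - x)) +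
      ∑ x : K, ∑ y : K, ee κ x * ee κ y * rh κ (y - x) * (f x * g y) -
      ∑ x : K, ∑ y : K, ee κ x * ee κ y * rh κ (y - x) * (f x * g (y - x)) +
      ∑ x : K, ∑ y : K, ee κ x * ee κ y * rh κ (y - x) * (f (1 - y) * g (1 - x)) +
      ∑ x : K, ∑ y : K, ee κ x * ee κ y * rh κ (y - x) * (f (1 - y) * g y) -
      ∑ x : K, ∑ y : K, ee κ x * ee κ y * rh κ (y - x) * (f (1 - y) * g (y - x)) -
      ∑ x : K, ∑ y : K, ee κ x * ee κ y * rh κ (y - x) * (f (y - x) * g (1 - x)) -
      ∑ x : K, ∑ y : K, ee κ x * ee κ y * rh κ (y - x) * (f (y - x) * g y) +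
      ∑ x : K, ∑ y : K, ee κ x * ee κ y * rh κ (y - x) * (f (y - x) * g (y - x)) := by
    simp only [← sum_add_distrib, ← sum_sub_distrib]
    refine sum_congr rfl fun x _ => sum_congr rfl fun y _ => ?_
    ring
  rw [hall, n11, n12 hf hg hfg, n13, n21, n22, n23, n31, n32, n33]
  ring

theorem slice' (hneg : quadraticChar K (-1) = 1) (G : K → κ) (y : K) :
    ee κ y * ∑ x : K, ee κ x * rh κ (y - x) * G (x * (1 - y) / (x - y)) =
      ∑ t : K, ee κ t * rh κ ((1 - y) * (1 - y - 1) * (1 - y - t)) * G t := by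
  by_cases hy0 : y = 0
  · subst hy0
    rw [ee, if_pos (Or.inl rfl), zero_mul, sum_eq_zero]
    intro t _
    rw [sub_zero, sub_self, mul_zero, zero_mul, rh_zero, mul_zero, zero_mul]
  by_cases hy1 : y = 1
  · subst hy1
    rw [ee, if_pos (Or.inr rfl), zero_mul, sum_eq_zero]
    intro t _
    rw [sub_self, zero_mul, zero_mul, rh_zero, mul_zero, zero_mul]
  have hy1' : 1 - y ≠ 0 := sub_ne_zero.2 (Ne.symm hy1)
  have hey : ee κ y = 1 := by
    rw [ee, if_neg]
    rw [not_or]
    exact ⟨hy0, hy1⟩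
  rw [hey, one_mul]
  have hl : ∑ x : K, ee κ x * rh κ (y - x) * G (x * (1 - y) / (x - y)) =
      ∑ x ∈ univ.filter (fun x : K => x ≠ 0 ∧ x ≠ 1 ∧ x ≠ y),
        ee κ x * rh κ (y - x) * G (x * (1 - y) / (x - y)) := by
    symm
    apply sum_filter_of_ne
    intro x _ hx
    refine ⟨?_, ?_, ?_⟩ <;> rintro rfl <;> apply hx
    · rw [ee, if_pos (Or.inl rfl), zero_mul, zero_mul]
    · rw [ee, if_pos (Or.inr rfl), zero_mul, zero_mul]
    · rw [sub_self, rh_zero, mul_zero, zero_mul]
  have hr : ∑ t : K, ee κ t * rh κ ((1 - y) * (1 - y - 1) * (1 - y - t)) * G t =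
      ∑ t ∈ univ.filter (fun t : K => t ≠ 0 ∧ t ≠ 1 ∧ t ≠ 1 - y),
        ee κ t * rh κ ((1 - y) * (1 - y - 1) * (1 - y - t)) * G t := by
    symm
    apply sum_filter_of_ne
    intro x _ hx
    refine ⟨?_, ?_, ?_⟩ <;> rintro rfl <;> apply hx
    · rw [ee, if_pos (Or.inl rfl), zero_mul, zero_mul]
    · rw [ee, if_pos (Or.inr rfl), zero_mul, zero_mul]
    · rw [sub_self (1 - y), mul_zero, rh_zero, mul_zero, zero_mul]
  rw [hl, hr]
  refine sum_nbij' (fun x => x * (1 - y) / (x - y)) (fun t => t * y / (t - (1 - y)))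
    ?_ ?_ ?_ ?_ ?_
  · intro x hx
    obtain ⟨h0, h1, h2⟩ := (mem_filter.1 hx).2
    have h3 : x - y ≠ 0 := sub_ne_zero.2 h2
    refine mem_filter.2 ⟨mem_univ _, div_ne_zero (mul_ne_zero h0 hy1') h3, ?_, ?_⟩
    · intro h4
      rw [div_eq_iff h3] at h4
      have h5 : y * (x - 1) = 0 := by linear_combination -h4
      rcases mul_eq_zero.1 h5 with h6 | h6
      · exact hy0 h6
      · exact h1 (sub_eq_zero.1 h6)
    · intro h4
      rw [div_eq_iff h3] at h4
      have h5 : y * (1 - y) = 0 := by linear_combination h4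
      rcases mul_eq_zero.1 h5 with h6 | h6
      · exact hy0 h6
      · exact hy1' h6
  · intro t ht
    obtain ⟨h0, h1, h2⟩ := (mem_filter.1 ht).2
    have h3 : t - (1 - y) ≠ 0 := sub_ne_zero.2 h2
    refine mem_filter.2 ⟨mem_univ _, div_ne_zero (mul_ne_zero h0 hy0) h3, ?_, ?_⟩
    · intro h4
      rw [div_eq_iff h3] at h4
      have h5 : (1 - y) * (t - 1) = 0 := by linear_combination -h4
      rcases mul_eq_zero.1 h5 with h6 | h6
      · exact hy1' h6
      · exact h1 (sub_eq_zero.1 h6)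
    · intro h4
      rw [div_eq_iff h3] at h4
      have h5 : y * (1 - y) = 0 := by linear_combination h4
      rcases mul_eq_zero.1 h5 with h6 | h6
      · exact hy0 h6
      · exact hy1' h6
  · intro x hx
    obtain ⟨h0, h1, h2⟩ := (mem_filter.1 hx).2
    have h3 : x - y ≠ 0 := sub_ne_zero.2 h2
    have h4 : x * (1 - y) / (x - y) - (1 - y) = (1 - y) * y / (x - y) := by
      field_simp
      ring
    have h5 : (1 - y) * y / (x - y) ≠ 0 := div_ne_zero (mul_ne_zero hy1' hy0) h3
    change x * (1 - y) / (x - y) * y / (x * (1 - y) / (x - y) - (1 - y)) = x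
    rw [h4]
    field_simp
  · intro t ht
    obtain ⟨h0, h1, h2⟩ := (mem_filter.1 ht).2
    have h3 : t - (1 - y) ≠ 0 := sub_ne_zero.2 h2
    have h4 : t * y / (t - (1 - y)) - y = (1 - y) * y / (t - (1 - y)) := by
      field_simp
      ring
    have h5 : (1 - y) * y / (t - (1 - y)) ≠ 0 := div_ne_zero (mul_ne_zero hy1' hy0) h3
    change t * y / (t - (1 - y)) * (1 - y) / (t * y / (t - (1 - y)) - y) = t
    rw [h4]
    field_simp
  · intro x hx
    obtain ⟨h0, h1, h2⟩ := (mem_filter.1 hx).2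
    have h3 : x - y ≠ 0 := sub_ne_zero.2 h2
    have h3' : y - x ≠ 0 := sub_ne_zero.2 (Ne.symm h2)
    have ht0 : x * (1 - y) / (x - y) ≠ 0 := div_ne_zero (mul_ne_zero h0 hy1') h3
    have ht1 : x * (1 - y) / (x - y) ≠ 1 := by
      intro h4
      rw [div_eq_iff h3] at h4
      have h5 : y * (x - 1) = 0 := by linear_combination -h4
      rcases mul_eq_zero.1 h5 with h6 | h6
      · exact hy0 h6
      · exact h1 (sub_eq_zero.1 h6)
    have e4 : (1 - y) * (1 - y - 1) * (1 - y - x * (1 - y) / (x - y)) * ((y - x)) = -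
        (((1 - y) * y) * ((1 - y) * y)) := by
      field_simp
      ring
    have e5 : rh κ ((1 - y) * (1 - y - 1) * (1 - y - x * (1 - y) / (x - y))) *
        rh κ (y - x) = 1 := by
      rw [← rh_mul, e4, rh_neg hneg, rh_mul, rh_sq (mul_ne_zero hy1' hy0)]
    have e6 : rh κ (y - x) * rh κ (y - x) = 1 := rh_sq h3'
    have e7 : rh κ ((1 - y) * (1 - y - 1) * (1 - y - x * (1 - y) / (x - y))) =
        rh κ (y - x) := by
      linear_combination (rh κ (y - x)) * e5 -
        (rh κ ((1 - y) * (1 - y - 1) * (1 - y - x * (1 - y) / (x - y)))) * e6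
    rw [e7]
    have e8 : ee κ x = 1 := by
      rw [ee, if_neg]
      rw [not_or]
      exact ⟨h0, h1⟩
    have e9 : ee κ (x * (1 - y) / (x - y)) = 1 := by
      rw [ee, if_neg]
      rw [not_or]
      exact ⟨ht0, ht1⟩
    rw [e8, e9]

/-- the sum of the traces against two logarithms vanishes -/
theorem cross (h2 : ringChar K ≠ 2) (hneg : quadraticChar K (-1) = 1) (hf : IsLog f)
    (hg : IsLog g) (hfg : ∑ x : K, rh κ x * (f x * g x) = 0) :
    ∑ t : K, ee κ t * ((tr t : κ) * (f t * g (1 - t))) = 0 := by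
  have h1 : ∑ t : K, ee κ t * ((tr t : κ) * (f t * g (1 - t))) =
      ∑ y : K, ∑ t : K, ee κ t * rh κ ((1 - y) * (1 - y - 1) * (1 - y - t)) *
        (f t * g (1 - t)) := by
    rw [sum_comm]
    refine sum_congr rfl fun t _ => ?_
    have e : (tr t : κ) = ∑ y : K, rh κ ((1 - y) * (1 - y - 1) * (1 - y - t)) := by
      rw [tr, Int.cast_sum, ← Equiv.sum_comp (Equiv.subLeft (1 : K))]
      rfl
    rw [e, sum_mul, mul_sum]
    refine sum_congr rfl fun y _ => ?_
    ring
  rw [h1, ← nine h2 hneg hf hg hfg, sum_comm (f := fun x y => ee κ x * ee κ y * rh κ (y - x) *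
    (f x + f (1 - y) - f (y - x)) * (g y + g (1 - x) - g (y - x)))]
  refine sum_congr rfl fun y _ => ?_
  rw [← slice' hneg (fun t => f t * g (1 - t)) y, mul_sum]
  refine sum_congr rfl fun x _ => ?_
  by_cases hx : x = 0 ∨ x = 1
  · have e : ee κ x = 0 := by rw [ee, if_pos hx]
    rw [e]
    ring
  by_cases hy : y = 0 ∨ y = 1
  · have e : ee κ y = 0 := by rw [ee, if_pos hy]
    rw [e]
    ring
  rw [not_or] at hx hy
  by_cases hxy : x = y
  · rw [hxy, sub_self, rh_zero]
    ring
  have h3 : x - y ≠ 0 := sub_ne_zero.2 hxy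
  have h4 : 1 - y ≠ 0 := sub_ne_zero.2 (Ne.symm hy.2)
  have h5 : x - 1 ≠ 0 := sub_ne_zero.2 hx.2
  have e1 : f (x * (1 - y) / (x - y)) = f x + f (1 - y) - f (y - x) := by
    rw [hf.div (mul_ne_zero hx.1 h4) h3, hf.mul _ _ hx.1 h4, ← hf.neg (x - y), neg_sub]
  have e2 : 1 - x * (1 - y) / (x - y) = y * (x - 1) / (x - y) := by
    field_simp
    ring
  have e3 : g (1 - x * (1 - y) / (x - y)) = g y + g (1 - x) - g (y - x) := by
    rw [e2, hg.div (mul_ne_zero hy.1 h5) h3, hg.mul _ _ hy.1 h5, ← hg.neg (x - y), neg_sub,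
      ← hg.neg (x - 1), neg_sub]
  change ee κ y * (ee κ x * rh κ (y - x) * (f (x * (1 - y) / (x - y)) *
    g (1 - x * (1 - y) / (x - y)))) = _
  rw [e1, e3]
  ring

end

end Pool.Agent.Helper73.LF
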