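import Pool.Agent.Helper73.LF.Leg

/-!
# The number of points of the Legendre curves modulo eight
-/

open Finset

namespace Pool.Agent.Helper73.LF

section

variable {K : Type*} [Field K] [Fintype K] [DecidableEq K]

/-- the sum of the quadratic character of `x (x - 1) (x - t)` over all `x` -/
def tr (t : K) : ℤ := ∑ x : K, quadraticChar K (x * (x - 1) * (x - t))

theorem eta_ne (h2 : ringChar K ≠ 2) : quadraticChar K ≠ 1 := quadraticChar_ne_one h2

theorem eta_sq {x : K} (hx : x ≠ 0) : quadraticChar K x * quadraticChar K x = 1 := by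
  rw [← pow_two]
  exact quadraticChar_sq_one hx

theorem sum_one (h2 : ringChar K ≠ 2) (a : K) : ∑ x : K, quadraticChar K (x - a) = 0 := by
  rw [← quadraticChar_sum_zero h2, ← Equiv.sum_comp (Equiv.subRight a)
    (fun x => quadraticChar K x)]
  rfl

theorem sum_two (h2 : ringChar K ≠ 2) {a b : K} (hab : a ≠ b) :
    ∑ x : K, quadraticChar K ((x - a) * (x - b)) = -1 := by
  have hba : b - a ≠ 0 := sub_ne_zero.2 (Ne.symm hab)
  have h1 := jacobiSum_nontrivial_inv (eta_ne h2 (K := K))
  rw [(quadraticChar_isQuadratic K).inv, jacobiSum] at h1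
  have h3 : quadraticChar K (-1) * quadraticChar K (-1) = 1 := eta_sq (neg_ne_zero.2 one_ne_zero)
  have h4 : ∑ x : K, quadraticChar K ((x - a) * (x - b)) =
      quadraticChar K (-1) * ∑ x : K, quadraticChar K x * quadraticChar K (1 - x) := by
    rw [← Equiv.sum_comp ((Equiv.mulLeft₀ (b - a) hba).trans (Equiv.addRight a)), mul_sum]
    refine sum_congr rfl fun x _ => ?_
    simp only [Equiv.trans_apply, Equiv.mulLeft₀_apply, Equiv.coe_addRight]
    have e : ((b - a) * x + a - a) * ((b - a) * x + a - b) =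
        (b - a) * (b - a) * (-1 * (x * (1 - x))) := by ring
    rw [e, map_mul, map_mul, eta_sq hba, one_mul, map_mul, map_mul]
  rw [h4, h1]
  linear_combination -h3

theorem even_fac {x : K} (hx : x ≠ 0) : (2 : ℤ) ∣ 1 + quadraticChar K x := by
  rcases quadraticChar_dichotomy hx with h | h <;> rw [h] <;> norm_num

/-- the number of points modulo eight -/
theorem tr_eight (h2 : ringChar K ≠ 2) (hneg : quadraticChar K (-1) = 1) {t : K} (h0 : t ≠ 0)
    (h1 : t ≠ 1) : (8 : ℤ) ∣ tr t - (8 - Fintype.card K + 3 * quadraticChar K t +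
      3 * quadraticChar K (1 - t) + quadraticChar K t * quadraticChar K (1 - t)) := by
  classical
  set η := quadraticChar K with hη
  have hn : ∀ x : K, η (-x) = η x := by
    intro x
    rw [← neg_one_mul, map_mul, hneg, one_mul]
  have hfull : ∑ x : K, (1 + η x) * (1 + η (x - 1)) * (1 + η (x - t)) =
      (Fintype.card K : ℤ) - 3 + tr t := by
    have e : ∀ x : K, (1 + η x) * (1 + η (x - 1)) * (1 + η (x - t)) =
        1 + η (x - 0) + η (x - 1) + η (x - t) + η ((x - 0) * (x - 1)) + η ((x - 0) * (x - t)) +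
          η ((x - 1) * (x - t)) + η (x * (x - 1) * (x - t)) := by
      intro x
      rw [sub_zero, map_mul, map_mul, map_mul, map_mul, map_mul]
      ring
    rw [sum_congr rfl fun x _ => e x]
    simp only [sum_add_distrib]
    rw [sum_one h2, sum_one h2, sum_one h2, sum_two h2 zero_ne_one, sum_two h2 (Ne.symm h0),
      sum_two h2 (Ne.symm h1), tr]
    simp only [sum_const, card_univ, nsmul_eq_mul, mul_one]
    ring
  have hsplit : ∑ x : K, (1 + η x) * (1 + η (x - 1)) * (1 + η (x - t)) =
      2 * (1 + η t) + 2 * (1 + η (1 - t)) + (1 + η t) * (1 + η (1 - t)) +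
        ∑ x ∈ univ \ {0, 1, t}, (1 + η x) * (1 + η (x - 1)) * (1 + η (x - t)) := by
    rw [← sum_sdiff (subset_univ ({0, 1, t} : Finset K)), add_comm]
    congr 1
    rw [sum_insert (by
      rw [mem_insert, mem_singleton, not_or]
      exact ⟨zero_ne_one, Ne.symm h0⟩), sum_insert (by rw [mem_singleton]; exact Ne.symm h1),
      sum_singleton]
    rw [zero_sub, zero_sub, sub_self, sub_self, hn, hn]
    have e1 : η (t - 1) = η (1 - t) := by rw [← hn (t - 1), neg_sub]
    have e0 : η 0 = 0 := MulChar.map_nonunit _ not_isUnit_zero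
    have e2 : η 1 = 1 := map_one _
    rw [e1, e0, e2]
    ring
  have hdvd : (8 : ℤ) ∣ ∑ x ∈ univ \ {0, 1, t}, (1 + η x) * (1 + η (x - 1)) * (1 + η (x - t)) := by
    apply dvd_sum
    intro x hx
    rw [mem_sdiff, mem_insert, mem_insert, mem_singleton, not_or, not_or] at hx
    obtain ⟨_, hx0, hx1, hxt⟩ := hx
    have e : (8 : ℤ) = 2 * 2 * 2 := by norm_num
    rw [e]
    exact mul_dvd_mul (mul_dvd_mul (even_fac hx0) (even_fac (sub_ne_zero.2 hx1)))
      (even_fac (sub_ne_zero.2 hxt))
  have h3 : tr t - (8 - Fintype.card K + 3 * η t + 3 * η (1 - t) + η t * η (1 - t)) =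
      ∑ x ∈ univ \ {0, 1, t}, (1 + η x) * (1 + η (x - 1)) * (1 + η (x - t)) := by
    linear_combination hsplit - hfull
  rw [h3]
  exact hdvd

/-- the sum of the traces over all `t` -/
theorem sum_tr_all (h2 : ringChar K ≠ 2) : ∑ t : K, tr t = 0 := by
  simp only [tr]
  rw [sum_comm]
  refine sum_eq_zero fun x _ => ?_
  have e : ∀ t : K, quadraticChar K (x * (x - 1) * (x - t)) =
      quadraticChar K (x * (x - 1) * (-1)) * quadraticChar K (t - x) := by
    intro t
    rw [← map_mul]
    congr 1
    ring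
  rw [sum_congr rfl fun t _ => e t, ← mul_sum, sum_one h2, mul_zero]

theorem tr_zero (h2 : ringChar K ≠ 2) : tr (0 : K) = - quadraticChar K (-1) := by
  have e : ∀ x : K, quadraticChar K (x * (x - 1) * (x - 0)) =
      quadraticChar K (x - 1) - if x = 0 then quadraticChar K (-1) else 0 := by
    intro x
    split_ifs with hx
    · rw [hx, zero_mul, zero_mul, MulChar.map_nonunit _ not_isUnit_zero, zero_sub, sub_self]
    · rw [sub_zero, mul_right_comm, map_mul, map_mul, eta_sq hx, one_mul, sub_zero]
  rw [tr, sum_congr rfl fun x _ => e x, sum_sub_distrib, sum_one h2, sum_ite_eq' univ (0 : K),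
    if_pos (mem_univ _), zero_sub]

theorem tr_one (h2 : ringChar K ≠ 2) : tr (1 : K) = - 1 := by
  have e : ∀ x : K, quadraticChar K (x * (x - 1) * (x - 1)) =
      quadraticChar K (x - 0) - if x = 1 then 1 else 0 := by
    intro x
    split_ifs with hx
    · rw [hx, sub_self, mul_zero, MulChar.map_nonunit _ not_isUnit_zero, sub_zero, map_one,
        sub_self]
    · rw [mul_assoc, map_mul, map_mul, eta_sq (sub_ne_zero.2 hx), mul_one, sub_zero, sub_zero]
  rw [tr, sum_congr rfl fun x _ => e x, sum_sub_distrib, sum_one h2, sum_ite_eq' univ (1 : K),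
    if_pos (mem_univ _), zero_sub]

/-- the sum of all the traces -/
theorem sum_tr (h2 : ringChar K ≠ 2) :
    ∑ t : K, (if t = 0 ∨ t = 1 then 0 else tr t) = 1 + quadraticChar K (-1) := by
  classical
  have h3 : ∀ t : K, (if t = 0 ∨ t = 1 then 0 else tr t) =
      tr t - (if t = 0 then tr (0 : K) else 0) - (if t = 1 then tr (1 : K) else 0) := by
    intro t
    by_cases ht : t = 0
    · subst ht
      rw [if_pos (Or.inl rfl), if_pos rfl, if_neg zero_ne_one, sub_self, sub_zero]
    · by_cases ht1 : t = 1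
      · subst ht1
        rw [if_pos (Or.inr rfl), if_neg ht, if_pos rfl, sub_zero, sub_self]
      · rw [if_neg (by tauto), if_neg ht, if_neg ht1, sub_zero, sub_zero]
  rw [sum_congr rfl fun t _ => h3 t, sum_sub_distrib, sum_sub_distrib, sum_tr_all h2,
    sum_ite_eq' univ (0 : K) (fun _ => tr (0 : K)), sum_ite_eq' univ (1 : K)
      (fun _ => tr (1 : K)),
    if_pos (mem_univ _), if_pos (mem_univ _), tr_zero h2, tr_one h2]
  ring

end

end Pool.Agent.Helper73.LF
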