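import Mathlib

/-!
# A functional equation for sums of three characters over three variables
-/

open Finset

namespace Pool.Agent.Helper73.LF

section

variable {K L : Type*} [Field K] [Fintype K] [Field L]

/-- the sum with the values of `α`, `β`, `γ` at `x (s - y)`, `(x - s) (- y)`, `(x - y) (- s)` -/
noncomputable def tri (α β γ : MulChar K L) : L :=
  ∑ y, ∑ s, ∑ x, α (x * (s - y)) * β ((x - s) * (-y)) * γ ((x - y) * (-s))

theorem expand {χ : MulChar K L} (hχ : χ ≠ 1) (ψ : AddChar K L) (z : K) :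
    gaussSum χ⁻¹ ψ * χ z = ∑ u, χ⁻¹ u * ψ (u * z) := by
  by_cases hz : z = 0
  · subst hz
    have h0 : ¬ IsUnit (0 : K) := not_isUnit_zero
    rw [MulChar.map_nonunit χ h0, mul_zero]
    simp only [mul_zero, AddChar.map_zero_eq_one, mul_one]
    exact (MulChar.sum_eq_zero_of_ne_one (inv_ne_one.2 hχ)).symm
  · have h1 := gaussSum_mulShift χ⁻¹ ψ (Units.mk0 z hz)
    rw [Units.val_mk0] at h1
    have h2 : χ z * χ⁻¹ z = 1 := by
      rw [← MulChar.mul_apply, mul_inv_cancel, MulChar.one_apply (isUnit_iff_ne_zero.2 hz)]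
    have h3 : gaussSum χ⁻¹ (ψ.mulShift z) = gaussSum χ⁻¹ ψ * χ z := by
      rw [← h1]
      linear_combination (- gaussSum χ⁻¹ (ψ.mulShift z)) * h2
    rw [← h3, gaussSum]
    refine sum_congr rfl fun u _ => ?_
    rw [AddChar.mulShift_apply, mul_comm z u]

theorem prod_three {A : Type*} [Fintype A] (f g h : A → L) :
    (∑ a, f a) * (∑ b, g b) * (∑ c, h c) = ∑ b, ∑ c, ∑ a, f a * g b * h c := by
  rw [mul_comm (∑ a, f a), mul_assoc, sum_mul]
  refine sum_congr rfl fun b _ => ?_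
  rw [mul_comm (∑ a, f a), sum_mul, mul_sum]
  refine sum_congr rfl fun c _ => ?_
  rw [mul_sum, mul_sum]
  refine sum_congr rfl fun a _ => ?_
  ring

variable {α β γ : MulChar K L}

/-- the product of the three Gauss sums of the inverse characters -/
noncomputable def gs (α β γ : MulChar K L) (ψ : AddChar K L) : L :=
  gaussSum α⁻¹ ψ * gaussSum β⁻¹ ψ * gaussSum γ⁻¹ ψ

theorem sum_delta [DecidableEq K] {ψ : AddChar K L} (hψ : ψ.IsPrimitive) (F : K → L) (t : K) :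
    ∑ a, F a * ∑ x, ψ (x * (a - t)) = F t * Fintype.card K := by
  rw [sum_eq_single t]
  · rw [AddChar.sum_mulShift _ hψ, sub_self, if_pos rfl]
  · intro b _ hb
    rw [AddChar.sum_mulShift _ hψ, if_neg (sub_ne_zero.2 hb)]
    simp
  · intro h
    exact absurd (mem_univ t) h

/-- the three factors containing `x` -/
theorem part_one (hα : α ≠ 1) (hβ : β ≠ 1) (hγ : γ ≠ 1) {ψ : AddChar K L} (hψ : ψ.IsPrimitive)
    (s y : K) : gs α β γ ψ * ∑ x, α x * β (x - s) * γ (x - y) =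
      Fintype.card K * ∑ b, ∑ c, α⁻¹ (-b - c) * β⁻¹ b * γ⁻¹ c * ψ (-(b * s) - c * y) := by
  classical
  have h1 : ∀ x, gs α β γ ψ * (α x * β (x - s) * γ (x - y)) =
      ∑ b, ∑ c, ∑ a, (α⁻¹ a * β⁻¹ b * γ⁻¹ c * ψ (-(b * s) - c * y)) *
        ψ (x * (a - (-b - c))) := by
    intro x
    have e : gs α β γ ψ * (α x * β (x - s) * γ (x - y)) =
        (gaussSum α⁻¹ ψ * α x) * (gaussSum β⁻¹ ψ * β (x - s)) * (gaussSum γ⁻¹ ψ * γ (x - y)) := by
      rw [gs]; ring
    rw [e, expand hα, expand hβ, expand hγ, prod_three]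
    refine sum_congr rfl fun b _ => sum_congr rfl fun c _ => sum_congr rfl fun a _ => ?_
    have e2 : ψ (a * x) * ψ (b * (x - s)) * ψ (c * (x - y)) =
        ψ (-(b * s) - c * y) * ψ (x * (a - (-b - c))) := by
      rw [← AddChar.map_add_eq_mul, ← AddChar.map_add_eq_mul, ← AddChar.map_add_eq_mul]
      congr 1
      ring
    linear_combination (α⁻¹ a * β⁻¹ b * γ⁻¹ c) * e2
  rw [mul_sum, sum_congr rfl fun x _ => h1 x, sum_comm, mul_sum]
  refine sum_congr rfl fun b _ => ?_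
  rw [sum_comm, mul_sum]
  refine sum_congr rfl fun c _ => ?_
  rw [sum_comm]
  have h2 := sum_delta hψ (fun a => α⁻¹ a * β⁻¹ b * γ⁻¹ c * ψ (-(b * s) - c * y)) (-b - c)
  simp only [mul_sum] at h2
  rw [h2, mul_comm]

/-- the other three factors -/
theorem part_two (hα : α ≠ 1) (hβ : β ≠ 1) (hγ : γ ≠ 1) {ψ : AddChar K L} (hψ : ψ.IsPrimitive)
    (b c : K) : gs α β γ ψ *
      ∑ y, ∑ s, α (s - y) * β (-y) * γ (-s) * ψ (-(b * s) - c * y) =
      (Fintype.card K : L) ^ 2 * ∑ a, α⁻¹ a * β⁻¹ (-a - c) * γ⁻¹ (a - b) := by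
  classical
  have h1 : ∀ y s, gs α β γ ψ * (α (s - y) * β (-y) * γ (-s) * ψ (-(b * s) - c * y)) =
      ∑ u, ∑ v, ∑ a, (α⁻¹ a * β⁻¹ u * γ⁻¹ v) * ψ (y * (-a - c - u)) * ψ (s * (a - b - v)) := by
    intro y s
    have e : gs α β γ ψ * (α (s - y) * β (-y) * γ (-s) * ψ (-(b * s) - c * y)) =
        (gaussSum α⁻¹ ψ * α (s - y)) * (gaussSum β⁻¹ ψ * β (-y)) * (gaussSum γ⁻¹ ψ * γ (-s)) *
          ψ (-(b * s) - c * y) := by
      rw [gs]; ring
    rw [e, expand hα, expand hβ, expand hγ, prod_three, sum_mul]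
    refine sum_congr rfl fun u _ => ?_
    rw [sum_mul]
    refine sum_congr rfl fun v _ => ?_
    rw [sum_mul]
    refine sum_congr rfl fun a _ => ?_
    have e2 : ψ (a * (s - y)) * ψ (u * (-y)) * ψ (v * (-s)) * ψ (-(b * s) - c * y) =
        ψ (y * (-a - c - u)) * ψ (s * (a - b - v)) := by
      rw [← AddChar.map_add_eq_mul, ← AddChar.map_add_eq_mul, ← AddChar.map_add_eq_mul,
        ← AddChar.map_add_eq_mul]
      congr 1
      ring
    linear_combination (α⁻¹ a * β⁻¹ u * γ⁻¹ v) * e2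
  calc gs α β γ ψ * ∑ y, ∑ s, α (s - y) * β (-y) * γ (-s) * ψ (-(b * s) - c * y)
      = ∑ y, ∑ s, ∑ u, ∑ v, ∑ a,
          (α⁻¹ a * β⁻¹ u * γ⁻¹ v) * ψ (y * (-a - c - u)) * ψ (s * (a - b - v)) := by
        rw [mul_sum]
        refine sum_congr rfl fun y _ => ?_
        rw [mul_sum]
        exact sum_congr rfl fun s _ => h1 y s
    _ = ∑ a, ∑ u, ∑ v, (α⁻¹ a * β⁻¹ u * γ⁻¹ v) * (∑ y, ψ (y * (-a - c - u))) *
          (∑ s, ψ (s * (a - b - v))) := by
        have e : ∀ y, ∑ s, ∑ u, ∑ v, ∑ a,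
            (α⁻¹ a * β⁻¹ u * γ⁻¹ v) * ψ (y * (-a - c - u)) * ψ (s * (a - b - v)) =
            ∑ a, ∑ u, ∑ v, (α⁻¹ a * β⁻¹ u * γ⁻¹ v) * ψ (y * (-a - c - u)) *
              (∑ s, ψ (s * (a - b - v))) := by
          intro y
          rw [sum_comm]
          have e1 : ∀ u, ∑ s, ∑ v, ∑ a,
              (α⁻¹ a * β⁻¹ u * γ⁻¹ v) * ψ (y * (-a - c - u)) * ψ (s * (a - b - v)) =
              ∑ a, ∑ v, (α⁻¹ a * β⁻¹ u * γ⁻¹ v) * ψ (y * (-a - c - u)) *
                (∑ s, ψ (s * (a - b - v))) := by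
            intro u
            rw [sum_comm]
            rw [sum_comm (s := (univ : Finset K)) (t := (univ : Finset K))
              (f := fun a v => (α⁻¹ a * β⁻¹ u * γ⁻¹ v) * ψ (y * (-a - c - u)) *
                (∑ s, ψ (s * (a - b - v))))]
            refine sum_congr rfl fun v _ => ?_
            rw [sum_comm]
            refine sum_congr rfl fun a _ => ?_
            rw [mul_sum]
          rw [sum_congr rfl fun u _ => e1 u, sum_comm]
        rw [sum_congr rfl fun y _ => e y, sum_comm]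
        refine sum_congr rfl fun a _ => ?_
        rw [sum_comm]
        refine sum_congr rfl fun u _ => ?_
        rw [sum_comm]
        refine sum_congr rfl fun v _ => ?_
        rw [← sum_mul, ← mul_sum]
    _ = (Fintype.card K : L) ^ 2 * ∑ a, α⁻¹ a * β⁻¹ (-a - c) * γ⁻¹ (a - b) := by
        rw [mul_sum]
        refine sum_congr rfl fun a _ => ?_
        rw [sum_eq_single (-a - c)]
        · rw [sum_eq_single (a - b)]
          · rw [AddChar.sum_mulShift _ hψ, AddChar.sum_mulShift _ hψ, sub_self, sub_self,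
              if_pos rfl]
            ring
          · intro v _ hv
            rw [AddChar.sum_mulShift _ hψ, AddChar.sum_mulShift _ hψ,
              if_neg (sub_ne_zero.2 (Ne.symm hv))]
            simp
          · intro h
            exact absurd (mem_univ _) h
        · intro u _ hu
          refine sum_eq_zero fun v _ => ?_
          rw [AddChar.sum_mulShift _ hψ, if_neg (sub_ne_zero.2 (Ne.symm hu))]
          simp
        · intro h
          exact absurd (mem_univ _) h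

/-- the functional equation -/
theorem functional (hα : α ≠ 1) (hβ : β ≠ 1) (hγ : γ ≠ 1) {ψ : AddChar K L}
    (hψ : ψ.IsPrimitive) : gs α β γ ψ ^ 2 * tri α β γ =
      (Fintype.card K : L) ^ 3 * tri α⁻¹ β⁻¹ γ⁻¹ := by
  classical
  have h1 : tri α β γ = ∑ y, ∑ s, (α (s - y) * β (-y) * γ (-s)) *
      ∑ x, α x * β (x - s) * γ (x - y) := by
    rw [tri]
    refine sum_congr rfl fun y _ => sum_congr rfl fun s _ => ?_
    rw [mul_sum]
    refine sum_congr rfl fun x _ => ?_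
    rw [map_mul, map_mul, map_mul]
    ring
  have h2 : gs α β γ ψ * tri α β γ = Fintype.card K * ∑ b, ∑ c, (α⁻¹ (-b - c) * β⁻¹ b * γ⁻¹ c) *
      ∑ y, ∑ s, α (s - y) * β (-y) * γ (-s) * ψ (-(b * s) - c * y) := by
    have e : ∀ y s, gs α β γ ψ * ((α (s - y) * β (-y) * γ (-s)) *
        ∑ x, α x * β (x - s) * γ (x - y)) = Fintype.card K * ∑ b, ∑ c,
          (α⁻¹ (-b - c) * β⁻¹ b * γ⁻¹ c) *
            (α (s - y) * β (-y) * γ (-s) * ψ (-(b * s) - c * y)) := by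
      intro y s
      have e1 := part_one hα hβ hγ hψ s y
      have e2 : gs α β γ ψ * ((α (s - y) * β (-y) * γ (-s)) *
        ∑ x, α x * β (x - s) * γ (x - y)) = (α (s - y) * β (-y) * γ (-s)) *
          (gs α β γ ψ * ∑ x, α x * β (x - s) * γ (x - y)) := by ring
      rw [e2, e1]
      have e3 : (α (s - y) * β (-y) * γ (-s)) * ((Fintype.card K : L) *
          ∑ b, ∑ c, α⁻¹ (-b - c) * β⁻¹ b * γ⁻¹ c * ψ (-(b * s) - c * y)) =
          (Fintype.card K : L) * ((α (s - y) * β (-y) * γ (-s)) *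
            ∑ b, ∑ c, α⁻¹ (-b - c) * β⁻¹ b * γ⁻¹ c * ψ (-(b * s) - c * y)) := by ring
      rw [e3, mul_sum]
      congr 1
      refine sum_congr rfl fun b _ => ?_
      rw [mul_sum]
      refine sum_congr rfl fun c _ => ?_
      ring
    rw [h1, mul_sum]
    have e4 : ∀ y, gs α β γ ψ * ∑ s, (α (s - y) * β (-y) * γ (-s)) *
        ∑ x, α x * β (x - s) * γ (x - y) = ∑ s, Fintype.card K * ∑ b, ∑ c,
          (α⁻¹ (-b - c) * β⁻¹ b * γ⁻¹ c) *
            (α (s - y) * β (-y) * γ (-s) * ψ (-(b * s) - c * y)) := by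
      intro y
      rw [mul_sum]
      exact sum_congr rfl fun s _ => e y s
    rw [sum_congr rfl fun y _ => e4 y]
    simp only [← mul_sum]
    congr 1
    have e5 : ∀ y, ∑ s, ∑ b, ∑ c, (α⁻¹ (-b - c) * β⁻¹ b * γ⁻¹ c) *
        (α (s - y) * β (-y) * γ (-s) * ψ (-(b * s) - c * y)) =
        ∑ b, ∑ c, (α⁻¹ (-b - c) * β⁻¹ b * γ⁻¹ c) *
          ∑ s, α (s - y) * β (-y) * γ (-s) * ψ (-(b * s) - c * y) := by
      intro y
      rw [sum_comm]
      refine sum_congr rfl fun b _ => ?_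
      rw [sum_comm]
      refine sum_congr rfl fun c _ => ?_
      rw [mul_sum]
    simp only [mul_sum] at e5 ⊢
    rw [sum_congr rfl fun y _ => e5 y, sum_comm]
    refine sum_congr rfl fun b _ => ?_
    rw [sum_comm]
  have h3 : gs α β γ ψ ^ 2 * tri α β γ = (Fintype.card K : L) ^ 3 *
      ∑ b, ∑ c, ∑ a, (α⁻¹ (-b - c) * β⁻¹ b * γ⁻¹ c) *
        (α⁻¹ a * β⁻¹ (-a - c) * γ⁻¹ (a - b)) := by
    rw [pow_two, mul_assoc, h2]
    have e : gs α β γ ψ * ((Fintype.card K : L) * ∑ b, ∑ c, (α⁻¹ (-b - c) * β⁻¹ b * γ⁻¹ c) *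
        ∑ y, ∑ s, α (s - y) * β (-y) * γ (-s) * ψ (-(b * s) - c * y)) =
        (Fintype.card K : L) * ∑ b, ∑ c, (α⁻¹ (-b - c) * β⁻¹ b * γ⁻¹ c) *
          (gs α β γ ψ * ∑ y, ∑ s, α (s - y) * β (-y) * γ (-s) * ψ (-(b * s) - c * y)) := by
      rw [← mul_assoc, mul_comm (gs α β γ ψ), mul_assoc, mul_sum]
      congr 1
      refine sum_congr rfl fun b _ => ?_
      rw [mul_sum]
      refine sum_congr rfl fun c _ => ?_
      ring
    rw [e]
    have e2 : ∀ b c, (α⁻¹ (-b - c) * β⁻¹ b * γ⁻¹ c) *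
          (gs α β γ ψ * ∑ y, ∑ s, α (s - y) * β (-y) * γ (-s) * ψ (-(b * s) - c * y)) =
        (Fintype.card K : L) ^ 2 * ∑ a, (α⁻¹ (-b - c) * β⁻¹ b * γ⁻¹ c) *
          (α⁻¹ a * β⁻¹ (-a - c) * γ⁻¹ (a - b)) := by
      intro b c
      rw [part_two hα hβ hγ hψ b c, ← mul_sum]
      ring
    simp only [e2, ← mul_sum]
    ring
  rw [h3]
  congr 1
  -- `c = -s`
  have h4 : ∀ s : K, ∑ b, ∑ a, (α⁻¹ (-b - (Equiv.neg K) s) * β⁻¹ b * γ⁻¹ ((Equiv.neg K) s)) *
      (α⁻¹ a * β⁻¹ (-a - (Equiv.neg K) s) * γ⁻¹ (a - b)) =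
      ∑ x, ∑ y, α⁻¹ (x * (s - y)) * β⁻¹ ((x - s) * (-y)) * γ⁻¹ ((x - y) * (-s)) := by
    intro s
    rw [← Equiv.sum_comp (Equiv.subLeft s)]
    refine sum_congr rfl fun x _ => ?_
    rw [← Equiv.sum_comp (Equiv.subLeft s)]
    refine sum_congr rfl fun y _ => ?_
    rw [Equiv.subLeft_apply, Equiv.subLeft_apply, Equiv.neg_apply]
    have e1 : -(s - x) - -s = x := by ring
    have e2 : -(s - y) - -s = y := by ring
    have e3 : s - y - (s - x) = x - y := by ring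
    have e4 : (x - s) * (-y) = (s - x) * y := by ring
    rw [e1, e2, e3, e4, map_mul, map_mul, map_mul]
    ring
  rw [sum_comm (f := fun b c => ∑ a, (α⁻¹ (-b - c) * β⁻¹ b * γ⁻¹ c) *
    (α⁻¹ a * β⁻¹ (-a - c) * γ⁻¹ (a - b))), ← Equiv.sum_comp (Equiv.neg K),
    sum_congr rfl fun s _ => h4 s, tri, sum_comm (f := fun y s => ∑ x, α⁻¹ (x * (s - y)) *
      β⁻¹ ((x - s) * (-y)) * γ⁻¹ ((x - y) * (-s)))]
  exact sum_congr rfl fun s _ => sum_comm

end

end Pool.Agent.Helper73.LF
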