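import Pool.Agent.Helper73.LF.Gauss

/-!
# The functional equation for sums over the Legendre family
-/

open Finset

namespace Pool.Agent.Helper73.LF

section

variable {K L : Type*} [Field K] [Fintype K] [Field L]

/-- the sum of `ρ (x (x - 1) (x - t)) α (t) β (1 - t)` over all `t` and `x` -/
noncomputable def legSum (ρ α β : MulChar K L) : L :=
  ∑ t, ∑ x, ρ (x * (x - 1) * (x - t)) * (α t * β (1 - t))

variable {ρ α β γ : MulChar K L}

omit [Fintype K] in
theorem char_zero (χ : MulChar K L) : χ 0 = 0 := χ.map_nonunit not_isUnit_zero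

omit [Fintype K] in
theorem char_ne {χ : MulChar K L} {x : K} (hx : x ≠ 0) : χ x ≠ 0 := by
  intro h
  have h1 : χ x * χ⁻¹ x = 1 := by
    rw [← MulChar.mul_apply, mul_inv_cancel, MulChar.one_apply (isUnit_iff_ne_zero.2 hx)]
  rw [h, zero_mul] at h1
  exact zero_ne_one h1

omit [Fintype K] in
theorem sq_apply (hρ : ρ ^ 2 = 1) {s : K} (hs : s ≠ 0) : ρ s * ρ s = 1 := by
  rw [← pow_two, ← MulChar.pow_apply' ρ two_ne_zero, hρ,
    MulChar.one_apply (isUnit_iff_ne_zero.2 hs)]

theorem tri_scale (hρ : ρ ^ 2 = 1) (h : α * β * γ = ρ) :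
    tri α β γ = (Fintype.card K - 1) *
      ∑ y, ∑ x, α (x * (1 - y)) * β ((x - 1) * (-y)) * γ ((x - y) * (-1)) := by
  classical
  rw [tri, sum_comm]
  have h1 : ∀ s : K, ∑ y, ∑ x, α (x * (s - y)) * β ((x - s) * (-y)) * γ ((x - y) * (-s)) =
      (if s = 0 then 0 else 1) *
        ∑ y, ∑ x, α (x * (1 - y)) * β ((x - 1) * (-y)) * γ ((x - y) * (-1)) := by
    intro s
    split_ifs with hs
    · subst hs
      rw [zero_mul]
      refine sum_eq_zero fun y _ => sum_eq_zero fun x _ => ?_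
      rw [neg_zero, mul_zero, char_zero, mul_zero]
    · rw [one_mul, ← Equiv.sum_comp (Equiv.mulLeft₀ s hs)]
      refine sum_congr rfl fun y _ => ?_
      rw [← Equiv.sum_comp (Equiv.mulLeft₀ s hs)]
      refine sum_congr rfl fun x _ => ?_
      simp only [Equiv.mulLeft₀_apply]
      have e1 : s * x * (s - s * y) = s * s * (x * (1 - y)) := by ring
      have e2 : (s * x - s) * (-(s * y)) = s * s * ((x - 1) * (-y)) := by ring
      have e3 : (s * x - s * y) * (-s) = s * s * ((x - y) * (-1)) := by ring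
      rw [e1, e2, e3, map_mul α (s * s), map_mul β (s * s), map_mul γ (s * s)]
      have e4 : α (s * s) * β (s * s) * γ (s * s) = 1 := by
        rw [← MulChar.mul_apply, ← MulChar.mul_apply, h, map_mul, sq_apply hρ hs]
      linear_combination (α (x * (1 - y)) * β ((x - 1) * (-y)) * γ ((x - y) * (-1))) * e4
  rw [sum_congr rfl fun s _ => h1 s, ← sum_mul]
  congr 1
  rw [sum_ite, sum_const_zero, zero_add, sum_const, filter_ne' univ (0 : K),
    card_erase_of_mem (mem_univ _), card_univ, nsmul_eq_mul, mul_one, Nat.cast_sub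
    (Fintype.card_pos), Nat.cast_one]

theorem slice (hρ : ρ ^ 2 = 1) (h : α * β * γ = ρ) (y : K) :
    ∑ x, α (x * (1 - y)) * β ((x - 1) * (-y)) * γ ((x - y) * (-1)) =
      α (-1) * ρ (-1) * ∑ t, ρ ((1 - y) * (1 - y - 1) * (1 - y - t)) * (α t * β (1 - t)) := by
  classical
  by_cases hy0 : y = 0
  · subst hy0
    rw [sum_eq_zero, sum_eq_zero, mul_zero]
    · intro t _
      rw [sub_zero, sub_self, mul_zero, zero_mul, char_zero, zero_mul]
    · intro x _
      rw [neg_zero, mul_zero, char_zero, mul_zero, zero_mul]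
  by_cases hy1 : y = 1
  · subst hy1
    rw [sum_eq_zero, sum_eq_zero, mul_zero]
    · intro t _
      rw [sub_self, zero_mul, zero_mul, char_zero, zero_mul]
    · intro x _
      rw [sub_self, mul_zero, char_zero, zero_mul, zero_mul]
  have hy1' : 1 - y ≠ 0 := sub_ne_zero.2 (Ne.symm hy1)
  rw [mul_sum]
  have hl : ∑ x, α (x * (1 - y)) * β ((x - 1) * (-y)) * γ ((x - y) * (-1)) =
      ∑ x ∈ univ.filter (fun x : K => x ≠ 0 ∧ x ≠ 1 ∧ x ≠ y),
        α (x * (1 - y)) * β ((x - 1) * (-y)) * γ ((x - y) * (-1)) := by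
    symm
    apply sum_filter_of_ne
    intro x _ hx
    refine ⟨?_, ?_, ?_⟩ <;> rintro rfl <;> apply hx
    · rw [zero_mul, char_zero, zero_mul, zero_mul]
    · rw [sub_self, zero_mul, char_zero, mul_zero, zero_mul]
    · rw [sub_self, zero_mul, char_zero, mul_zero]
  have hr : ∑ t, α (-1) * ρ (-1) *
      (ρ ((1 - y) * (1 - y - 1) * (1 - y - t)) * (α t * β (1 - t))) =
      ∑ t ∈ univ.filter (fun t : K => t ≠ 0 ∧ t ≠ 1 ∧ t ≠ 1 - y), α (-1) * ρ (-1) *
        (ρ ((1 - y) * (1 - y - 1) * (1 - y - t)) * (α t * β (1 - t))) := by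
    symm
    apply sum_filter_of_ne
    intro x _ hx
    refine ⟨?_, ?_, ?_⟩ <;> rintro rfl <;> apply hx
    · rw [char_zero α, zero_mul, mul_zero, mul_zero]
    · rw [sub_self, char_zero β, mul_zero, mul_zero, mul_zero]
    · rw [sub_self (1 - y), mul_zero, char_zero ρ, zero_mul, mul_zero]
  rw [hl, hr]
  refine sum_nbij' (fun x => x * (1 - y) / (x - y)) (fun t => t * y / (t - (1 - y)))
    ?_ ?_ ?_ ?_ ?_
  · intro x hx
    obtain ⟨h0, h1, h2⟩ := (mem_filter.1 hx).2
    have h3 : x - y ≠ 0 := sub_ne_zero.2 h2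
    refine mem_filter.2 ⟨mem_univ _, div_ne_zero (mul_ne_zero h0 hy1') h3, ?_, ?_⟩
    · intro h4
      rw [div_eq_iff h3] at h4
      have h5 : y * (x - 1) = 0 := by linear_combination -h4
      rcases mul_eq_zero.1 h5 with h6 | h6
      · exact hy0 h6
      · exact h1 (sub_eq_zero.1 h6)
    · intro h4
      rw [div_eq_iff h3] at h4
      have h5 : y * (1 - y) = 0 := by linear_combination h4
      rcases mul_eq_zero.1 h5 with h6 | h6
      · exact hy0 h6
      · exact hy1' h6
  · intro t ht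
    obtain ⟨h0, h1, h2⟩ := (mem_filter.1 ht).2
    have h3 : t - (1 - y) ≠ 0 := sub_ne_zero.2 h2
    refine mem_filter.2 ⟨mem_univ _, div_ne_zero (mul_ne_zero h0 hy0) h3, ?_, ?_⟩
    · intro h4
      rw [div_eq_iff h3] at h4
      have h5 : (1 - y) * (t - 1) = 0 := by linear_combination -h4
      rcases mul_eq_zero.1 h5 with h6 | h6
      · exact hy1' h6
      · exact h1 (sub_eq_zero.1 h6)
    · intro h4
      rw [div_eq_iff h3] at h4
      have h5 : y * (1 - y) = 0 := by linear_combination h4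
      rcases mul_eq_zero.1 h5 with h6 | h6
      · exact hy0 h6
      · exact hy1' h6
  · intro x hx
    obtain ⟨h0, h1, h2⟩ := (mem_filter.1 hx).2
    have h3 : x - y ≠ 0 := sub_ne_zero.2 h2
    have h4 : x * (1 - y) / (x - y) - (1 - y) = (1 - y) * y / (x - y) := by
      field_simp
      ring
    have h5 : (1 - y) * y / (x - y) ≠ 0 := div_ne_zero (mul_ne_zero hy1' hy0) h3
    change x * (1 - y) / (x - y) * y / (x * (1 - y) / (x - y) - (1 - y)) = x
    rw [h4]
    field_simp
  · intro t ht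
    obtain ⟨h0, h1, h2⟩ := (mem_filter.1 ht).2
    have h3 : t - (1 - y) ≠ 0 := sub_ne_zero.2 h2
    have h4 : t * y / (t - (1 - y)) - y = (1 - y) * y / (t - (1 - y)) := by
      field_simp
      ring
    have h5 : (1 - y) * y / (t - (1 - y)) ≠ 0 := div_ne_zero (mul_ne_zero hy1' hy0) h3
    change t * y / (t - (1 - y)) * (1 - y) / (t * y / (t - (1 - y)) - y) = t
    rw [h4]
    field_simp
  · intro x hx
    obtain ⟨h0, h1, h2⟩ := (mem_filter.1 hx).2
    have h3 : x - y ≠ 0 := sub_ne_zero.2 h2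
    have h3' : y - x ≠ 0 := sub_ne_zero.2 (Ne.symm h2)
    set t := x * (1 - y) / (x - y) with ht
    have e1 : x * (1 - y) = -1 * (y - x) * t := by
      rw [ht]
      field_simp
      ring
    have e2 : (x - 1) * (-y) = (y - x) * (1 - t) := by
      rw [ht]
      field_simp
      ring
    have e3 : (x - y) * (-1) = y - x := by ring
    have e4 : (1 - y) * (1 - y - 1) * (1 - y - t) * ((y - x)) = -1 *
        ((1 - y) * y) * ((1 - y) * y) := by
      rw [ht]
      field_simp
      ring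
    have e5 : ρ ((1 - y) * (1 - y - 1) * (1 - y - t)) * ρ (y - x) = ρ (-1) := by
      rw [← map_mul, e4, map_mul, map_mul, mul_assoc, sq_apply hρ (mul_ne_zero hy1' hy0), mul_one]
    have e6 : ρ (y - x) * ρ (y - x) = 1 := sq_apply hρ h3'
    have e7 : ρ (-1 : K) * ρ (-1) = 1 := sq_apply hρ (neg_ne_zero.2 one_ne_zero)
    have e8 : α (y - x) * β (y - x) * γ (y - x) = ρ (y - x) := by
      rw [← MulChar.mul_apply, ← MulChar.mul_apply, h]
    have e9 : ρ (-1 : K) * ρ ((1 - y) * (1 - y - 1) * (1 - y - t)) = ρ (y - x) := by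
      linear_combination ρ (y - x) * e7 + (ρ (-1) * ρ (y - x)) * e5 -
        (ρ (-1) * ρ ((1 - y) * (1 - y - 1) * (1 - y - t))) * e6
    rw [e1, e2, e3, map_mul α, map_mul α, map_mul β]
    linear_combination (α (-1) * α t * β (1 - t)) * e8 - (α (-1) * α t * β (1 - t)) * e9

theorem tri_eq (hρ : ρ ^ 2 = 1) (h : α * β * γ = ρ) :
    tri α β γ = (Fintype.card K - 1) * (α (-1) * ρ (-1)) * legSum ρ α β := by
  have h1 : ∑ y, α (-1) * ρ (-1) * ∑ t, ρ ((1 - y) * (1 - y - 1) * (1 - y - t)) *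
      (α t * β (1 - t)) = α (-1) * ρ (-1) * legSum ρ α β := by
    rw [← mul_sum, legSum, sum_comm (f := fun t x => ρ (x * (x - 1) * (x - t)) *
      (α t * β (1 - t))), ← Equiv.sum_comp (Equiv.subLeft (1 : K)) (fun x => ∑ t,
        ρ (x * (x - 1) * (x - t)) * (α t * β (1 - t)))]
    rfl
  rw [tri_scale hρ h, sum_congr rfl fun y _ => slice hρ h y, h1]
  ring

end

end Pool.Agent.Helper73.LF
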